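import Mathlib

/-!
# Cyclic arrays of angles

`u i j`, `i < j < i + n`: the direction in which the vertex `i` of a convex polygon sees the
vertex `j` (a real lift of an angle).
-/

set_option autoImplicit false

namespace Pool.Agent.H40.Atiyah

open Finset

/-- strictly monotone periodic arrays -/
structure KArr (n : ℕ) (u : ℤ → ℤ → ℝ) : Prop where
  per : ∀ i j : ℤ, u (i + n) (j + n) = u i j + 2 * Real.pi
  row : ∀ i j : ℤ, i < j → j + 1 < i + n → u i j < u i (j + 1)
  col : ∀ i j : ℤ, i + 1 < j → j < i + n → u i j < u (i + 1) j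
  diag : ∀ i : ℤ, u i (i + 1) < u (i + 1) (i + 2)

variable {n : ℕ} {u : ℤ → ℤ → ℝ}

theorem KArr.mono_aux (H : KArr n u) (_hn : 2 ≤ n) : ∀ k : ℕ, ∀ i j i' j' : ℤ, i ≤ i' → j ≤ j' →
    i < j → j < i + n → i' < j' → j' < i' + n → (i' - i) + (j' - j) = k →
    (0 < k → u i j < u i' j') ∧ u i j ≤ u i' j' := by
  intro k
  induction k using Nat.strong_induction_on with
  | _ k ih =>
    intro i j i' j' h1 h2 h3 h4 h5 h6 h7
    rcases Nat.eq_zero_or_pos k with rfl | hk
    · have e1 : i = i' := by push_cast at h7; omega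
      have e2 : j = j' := by push_cast at h7; omega
      subst e1; subst e2
      exact ⟨fun h => absurd h (lt_irrefl _), le_refl _⟩
    have hlt : u i j < u i' j' := by
      by_cases c1 : j < j' ∧ j + 1 < i + n
      · have := (ih (k - 1) (by omega) i (j + 1) i' j' h1 (by omega) (by omega) c1.2 h5 h6
          (by omega)).2
        exact (H.row i j h3 c1.2).trans_le this
      · by_cases c2 : i < i' ∧ i + 1 < j
        · have := (ih (k - 1) (by omega) (i + 1) j i' j' (by omega) h2 c2.2 (by omega) h5 h6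
            (by omega)).2
          exact (H.col i j c2.2 h4).trans_le this
        · have e1 : j = i + 1 := by omega
          have e2 : i < i' := by omega
          have e3 : j < j' := by omega
          subst e1
          have := (ih (k - 2) (by omega) (i + 1) (i + 2) i' j' (by omega) (by omega) (by omega)
            (by omega) h5 h6 (by omega)).2
          exact (H.diag i).trans_le this
    exact ⟨fun _ => hlt, hlt.le⟩

theorem KArr.le (H : KArr n u) (hn : 2 ≤ n) {i j i' j' : ℤ} (h1 : i ≤ i') (h2 : j ≤ j')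
    (h3 : i < j) (h4 : j < i + n) (h5 : i' < j') (h6 : j' < i' + n) : u i j ≤ u i' j' :=
  (H.mono_aux hn ((i' - i) + (j' - j)).toNat i j i' j' h1 h2 h3 h4 h5 h6 (by omega)).2

theorem KArr.lt (H : KArr n u) (hn : 2 ≤ n) {i j i' j' : ℤ} (h1 : i ≤ i') (h2 : j ≤ j')
    (h3 : i < j) (h4 : j < i + n) (h5 : i' < j') (h6 : j' < i' + n)
    (h7 : i < i' ∨ j < j') : u i j < u i' j' :=
  (H.mono_aux hn ((i' - i) + (j' - j)).toNat i j i' j' h1 h2 h3 h4 h5 h6 (by omega)).1 (by omega)

/-- comparison with the next turn -/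
theorem KArr.lt_add (H : KArr n u) (hn : 2 ≤ n) {i j i' j' : ℤ} (h1 : i' ≤ i + n) (h2 : j' ≤ j + n)
    (h3 : i < j) (h4 : j < i + n) (h5 : i' < j') (h6 : j' < i' + n)
    (h7 : i' < i + n ∨ j' < j + n) : u i' j' < u i j + 2 * Real.pi := by
  rw [← H.per]
  exact H.lt hn h1 h2 h5 h6 (by omega) (by omega) h7

theorem KArr.shift (H : KArr n u) (k : ℤ) : KArr n (fun i j => u (i + k) (j + k)) where
  per i j := by
    have := H.per (i + k) (j + k)
    rw [show i + n + k = i + k + n by ring, show j + n + k = j + k + n by ring]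
    exact this
  row i j h1 h2 := by
    have := H.row (i + k) (j + k) (by omega) (by omega)
    rw [show j + 1 + k = j + k + 1 by ring]
    exact this
  col i j h1 h2 := by
    have := H.col (i + k) (j + k) (by omega) (by omega)
    rw [show i + 1 + k = i + k + 1 by ring]
    exact this
  diag i := by
    have := H.diag (i + k)
    rw [show i + 1 + k = i + k + 1 by ring, show i + 2 + k = i + k + 2 by ring]
    exact this

/-! ### Deletion of a vertex -/

/-- maps for the deletion of a vertex: `φ` enumerates the columns, `ψ` the rows, `z` is the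
column which is deleted in each row. -/
structure Del (N : ℕ) (φ ψ z : ℤ → ℤ) : Prop where
  φper : ∀ a : ℤ, φ (a + N) = φ a + (N + 1 : ℕ)
  φmono : StrictMono φ
  ψper : ∀ a : ℤ, ψ (a + N) = ψ a + (N + 1 : ℕ)
  ψmono : StrictMono ψ
  dom : ∀ a b : ℤ, a < b → b < a + N → ψ a < φ b ∧ φ b < ψ a + (N + 1 : ℕ)
  zmem : ∀ a : ℤ, ψ a < z a ∧ z a < ψ a + (N + 1 : ℕ)
  zne : ∀ a b : ℤ, a < b → b < a + N → φ b ≠ z a

theorem KArr.del {N : ℕ} (hN : 2 ≤ N) {φ ψ z : ℤ → ℤ} (D : Del N φ ψ z) (H : KArr (N + 1) u) :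
    KArr N (fun a b => u (ψ a) (φ b)) where
  per a b := by
    rw [D.ψper, D.φper]
    exact H.per _ _
  row a b h1 h2 := by
    obtain ⟨h3, h4⟩ := D.dom a b h1 (by omega)
    obtain ⟨h5, h6⟩ := D.dom a (b + 1) (by omega) h2
    have h7 := D.φmono (show b < b + 1 by omega)
    exact H.lt (by omega) (le_refl _) h7.le h3 h4 h5 h6 (Or.inr h7)
  col a b h1 h2 := by
    obtain ⟨h3, h4⟩ := D.dom a b (by omega) h2
    obtain ⟨h5, h6⟩ := D.dom (a + 1) b h1 (by omega)
    have h7 := D.ψmono (show a < a + 1 by omega)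
    exact H.lt (by omega) h7.le (le_refl _) h3 h4 h5 h6 (Or.inl h7)
  diag a := by
    obtain ⟨h3, h4⟩ := D.dom a (a + 1) (by omega) (by omega)
    obtain ⟨h5, h6⟩ := D.dom (a + 1) (a + 2) (by omega) (by omega)
    have h7 := D.ψmono (show a < a + 1 by omega)
    have h8 := D.φmono (show a + 1 < a + 2 by omega)
    exact H.lt (by omega) h7.le h8.le h3 h4 h5 h6 (Or.inl h7)

theorem Del.image {N : ℕ} {φ ψ z : ℤ → ℤ} (D : Del N φ ψ z) (a : ℤ) :
    (Ioo a (a + N)).image φ = (Ioo (ψ a) (ψ a + (N + 1 : ℕ))).erase (z a) := by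
  apply Finset.eq_of_subset_of_card_le
  · intro x hx
    obtain ⟨b, hb, rfl⟩ := Finset.mem_image.1 hx
    rw [Finset.mem_Ioo] at hb
    obtain ⟨h3, h4⟩ := D.dom a b hb.1 hb.2
    rw [Finset.mem_erase, Finset.mem_Ioo]
    exact ⟨D.zne a b hb.1 hb.2, h3, h4⟩
  · rw [Finset.card_image_of_injective _ D.φmono.injective, Finset.card_erase_of_mem
      (Finset.mem_Ioo.2 (D.zmem a)), Int.card_Ioo, Int.card_Ioo]
    omega

/-- the enumeration of the integers which are not multiples of `N + 1` -/
def phi (N : ℕ) (a : ℤ) : ℤ := a + 1 + a / N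

theorem phi_add (N : ℕ) (hN : 1 ≤ N) (a : ℤ) : phi N (a + N) = phi N a + (N + 1 : ℕ) := by
  unfold phi
  rw [Int.add_ediv_of_dvd_right (dvd_refl _), Int.ediv_self (by omega)]
  push_cast
  ring

theorem phi_mono (N : ℕ) (hN : 1 ≤ N) : StrictMono (phi N) := by
  intro a b h
  unfold phi
  have := Int.ediv_le_ediv (show (0 : ℤ) < N by omega) h.le
  omega

theorem phi_eq (N : ℕ) (a : ℤ) :
    phi N a = (N + 1) * (a / N) + (a % N + 1) := by
  unfold phi
  have := Int.mul_ediv_add_emod a N
  linear_combination -this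

theorem phi_ne (N : ℕ) (hN : 1 ≤ N) (a k : ℤ) : phi N a ≠ (N + 1) * k := by
  intro h
  have h1 := phi_eq N a
  have h2 := Int.emod_nonneg a (show (N : ℤ) ≠ 0 by omega)
  have h3 := Int.emod_lt_of_pos a (show (0 : ℤ) < N by omega)
  rw [h] at h1
  have h4 : ((N : ℤ) + 1) * (k - a / N) = a % N + 1 := by linear_combination h1
  have h5 : 0 < k - a / N := by
    by_contra hc
    push Not at hc
    nlinarith
  have h6 : k - a / N < 1 := by
    by_contra hc
    push Not at hc
    nlinarith
  omega

theorem phi_dom (N : ℕ) (hN : 1 ≤ N) (a b : ℤ) (h1 : a < b) (h2 : b < a + N) :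
    phi N a < phi N b ∧ phi N b < phi N a + (N + 1 : ℕ) := by
  refine ⟨phi_mono N hN h1, ?_⟩
  rw [← phi_add N hN]
  exact phi_mono N hN h2

/-- deletion of the vertex `0` -/
theorem del_zero (N : ℕ) (hN : 1 ≤ N) :
    Del N (phi N) (phi N) (fun a => (N + 1) * (a / N + 1)) where
  φper := phi_add N hN
  φmono := phi_mono N hN
  ψper := phi_add N hN
  ψmono := phi_mono N hN
  dom := phi_dom N hN
  zmem a := by
    have h1 := phi_eq N a
    have h2 := Int.emod_nonneg a (show (N : ℤ) ≠ 0 by omega)
    have h3 := Int.emod_lt_of_pos a (show (0 : ℤ) < N by omega)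
    constructor
    · rw [h1]; linarith
    · rw [h1]; push_cast; linarith
  zne a b _ _ := phi_ne N hN b _

/-- the rows when the row `1` is replaced by the row `0` -/
def psi (N : ℕ) (a : ℤ) : ℤ := if (N : ℤ) ∣ a then phi N a - 1 else phi N a

/-- deletion of the vertex `0`, the row `1` being replaced by the row `0` -/
theorem del_one (N : ℕ) (hN : 2 ≤ N) :
    Del N (phi N) (psi N)
      (fun a => if (N : ℤ) ∣ a then phi N a else (N + 1) * (a / N + 1)) where
  φper := phi_add N (by omega)
  φmono := phi_mono N (by omega)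
  ψper a := by
    unfold psi
    have h : (N : ℤ) ∣ a + N ↔ (N : ℤ) ∣ a := dvd_add_self_right
    by_cases hd : (N : ℤ) ∣ a
    · rw [if_pos (h.2 hd), if_pos hd, phi_add N (by omega)]; ring
    · rw [if_neg (fun h' => hd (h.1 h')), if_neg hd, phi_add N (by omega)]
  ψmono := by
    intro a b h
    unfold psi
    have h1 := phi_mono N (by omega) h
    by_cases ha : (N : ℤ) ∣ a
    · rw [if_pos ha]
      split_ifs <;> omega
    · rw [if_neg ha]
      split_ifs with hb
      · -- b is a multiple of N, so phi b - phi a ≥ 2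
        have h2 : a / N < b / N := by
          obtain ⟨c, rfl⟩ := hb
          rw [Int.mul_ediv_cancel_left _ (by omega : (N : ℤ) ≠ 0)]
          rw [Int.ediv_lt_iff_lt_mul (by omega)]
          rw [mul_comm]; exact h
        unfold phi
        omega
      · exact h1
  dom a b h1 h2 := by
    obtain ⟨h3, h4⟩ := phi_dom N (by omega) a b h1 h2
    unfold psi
    split_ifs with ha
    · refine ⟨by omega, ?_⟩
      have h5 : b / N = a / N := by
        obtain ⟨c, rfl⟩ := ha
        rw [Int.mul_ediv_cancel_left _ (by omega : (N : ℤ) ≠ 0)]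
        rw [Int.ediv_eq_iff_of_pos (by omega)]
        constructor <;> nlinarith
      unfold phi
      omega
    · exact ⟨h3, h4⟩
  zmem a := by
    unfold psi
    by_cases ha : (N : ℤ) ∣ a
    · simp only [if_pos ha]
      constructor <;> omega
    · simp only [if_neg ha]
      exact (del_zero N (by omega)).zmem a
  zne a b h1 h2 := by
    by_cases ha : (N : ℤ) ∣ a
    · simp only [if_pos ha]
      exact (phi_mono N (by omega) h1).ne'
    · simp only [if_neg ha]
      exact phi_ne N (by omega) b _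

end Pool.Agent.H40.Atiyah
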