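import Pool.Agent.H40.Atiyah.Slope

/-!
# Ideal polygons
-/

set_option autoImplicit false

namespace Pool.Agent.H40.Atiyah

open Finset Polynomial

/-- Lagrange interpolation for forms -/
theorem lagrange (v : ℤ → ℝ) (L : Finset ℤ) : (∀ l ∈ L, ∀ q ∈ L, l ≠ q →
      Real.sin ((v l - v q) / 2) ≠ 0) → ∀ g : ℝ[X] →ₗ[ℝ] ℝ,
    (∀ q ∈ L, g (P v (L.erase q)) = 0) → ∀ f ∈ degreeLT ℝ L.card, g f = 0 := by
  induction L using Finset.induction_on with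
  | empty =>
    intro _ g _ f hf
    have : f = 0 := by
      rw [Finset.card_empty, mem_degreeLT, degree_lt_iff_coeff_zero] at hf
      ext k
      rw [hf k (Nat.zero_le k), coeff_zero]
    rw [this, map_zero]
  | insert a L ha ih =>
    intro hs g hg
    have hs' : ∀ l ∈ L, ∀ q ∈ L, l ≠ q → Real.sin ((v l - v q) / 2) ≠ 0 := fun l hl q hq =>
      hs l (Finset.mem_insert_of_mem hl) q (Finset.mem_insert_of_mem hq)
    have h1 := ih hs' (g ∘ₗ LinearMap.mulLeft ℝ (S (v a))) (by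
      intro q hq
      have h2 := hg q (Finset.mem_insert_of_mem hq)
      have hqa : q ≠ a := fun h => ha (h ▸ hq)
      have h3 : (insert a L).erase q = insert a (L.erase q) := by
        rw [Finset.erase_insert_of_ne hqa.symm]
      have h4 : P v ((insert a L).erase q) = S (v a) * P v (L.erase q) := by
        rw [h3]
        unfold P
        rw [Finset.prod_insert (fun h => ha (Finset.mem_of_mem_erase h))]
      rw [h4] at h2
      exact h2)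
    have h2 : ∀ f ∈ degreeLT ℝ L.card, g (S (v a) * f) = 0 := h1
    rw [Finset.card_insert_of_notMem ha]
    apply ev_zero g (v a) L.card h2
    have h3 := ev_prod g (v a) L.card h2 v L (le_refl _)
    rw [Nat.sub_self, pow_zero, mul_one] at h3
    have h4 := hg a (Finset.mem_insert_self a L)
    rw [Finset.erase_insert ha, h3] at h4
    refine (mul_eq_zero.1 h4).resolve_left (Finset.prod_ne_zero_iff.2 fun l hl => ?_)
    exact neg_ne_zero.2 (hs l (Finset.mem_insert_of_mem hl) a (Finset.mem_insert_self a L)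
      (fun h => ha (h ▸ hl)))

section

variable {N : ℕ} {v : ℤ → ℝ}

theorem sin_ne_of_lt (hv : StrictMono v) (hp : ∀ l : ℤ, v (l + (N + 1 : ℕ)) = v l + 2 * Real.pi)
    {l q : ℤ} (h1 : l < q) (h2 : q < l + (N + 1 : ℕ)) : 0 < Real.sin ((v q - v l) / 2) := by
  have h3 := hv h1
  have h4 := hv h2
  rw [hp] at h4
  exact Real.sin_pos_of_pos_of_lt_pi (by linarith) (by linarith)

/-- the functional is an evaluation -/
theorem ideal_ev (hv : StrictMono v) (hp : ∀ l : ℤ, v (l + (N + 1 : ℕ)) = v l + 2 * Real.pi)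
    (g : ℝ[X] →ₗ[ℝ] ℝ)
    (hg : ∀ q ∈ Ioo (0 : ℤ) (N + 1 : ℕ), g (P v (Ioo q (q + (N + 1 : ℕ)))) = 0) :
    ∀ f ∈ degreeLT ℝ N, g (S (v (N + 1 : ℕ)) * f) = 0 := by
  have hc : (Ioo (0 : ℤ) ((N + 1 : ℕ) : ℤ)).card = N := by
    rw [Int.card_Ioo]; omega
  have h1 := lagrange v (Ioo (0 : ℤ) (N + 1 : ℕ)) (by
    intro l hl q hq hlq
    rw [Finset.mem_Ioo] at hl hq
    rcases lt_or_gt_of_ne hlq with h | h
    · have := sin_ne_of_lt hv hp h (by omega)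
      have e : (v l - v q) / 2 = -((v q - v l) / 2) := by ring
      rw [e, Real.sin_neg]
      exact neg_ne_zero.2 this.ne'
    · exact (sin_ne_of_lt hv hp h (by omega)).ne')
    (g ∘ₗ LinearMap.mulLeft ℝ (S (v (N + 1 : ℕ)))) (by
    intro q hq
    have h2 := hg q hq
    rw [Finset.mem_Ioo] at hq
    -- split the row
    have h3 : Ioo q (q + ((N + 1 : ℕ) : ℤ)) =
        insert ((N + 1 : ℕ) : ℤ) (Ioo q ((N + 1 : ℕ) : ℤ) ∪
          (Ioo (0 : ℤ) q).image (· + ((N + 1 : ℕ) : ℤ))) := by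
      ext x
      simp only [Finset.mem_insert, Finset.mem_union, Finset.mem_image, Finset.mem_Ioo]
      constructor
      · rintro ⟨h3, h4⟩
        rcases lt_trichotomy x ((N + 1 : ℕ) : ℤ) with h | h | h
        · exact Or.inr (Or.inl ⟨h3, h⟩)
        · exact Or.inl h
        · exact Or.inr (Or.inr ⟨x - (N + 1 : ℕ), ⟨by omega, by omega⟩, by omega⟩)
      · rintro (h | ⟨h3, h4⟩ | ⟨y, ⟨h3, h4⟩, rfl⟩)
        · omega
        · omega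
        · omega
    have h4 : ((N + 1 : ℕ) : ℤ) ∉ (Ioo q ((N + 1 : ℕ) : ℤ) ∪
        (Ioo (0 : ℤ) q).image (· + ((N + 1 : ℕ) : ℤ))) := by
      simp only [Finset.mem_union, Finset.mem_image, Finset.mem_Ioo]
      rintro (⟨-, h⟩ | ⟨y, ⟨h3, h4⟩, h5⟩)
      · omega
      · omega
    have h5 : Disjoint (Ioo q ((N + 1 : ℕ) : ℤ))
        ((Ioo (0 : ℤ) q).image (· + ((N + 1 : ℕ) : ℤ))) := by
      rw [Finset.disjoint_left]
      intro x hx hx'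
      simp only [Finset.mem_image, Finset.mem_Ioo] at hx hx'
      obtain ⟨y, ⟨h6, h7⟩, rfl⟩ := hx'
      omega
    have h6 : (Ioo (0 : ℤ) ((N + 1 : ℕ) : ℤ)).erase q =
        Ioo q ((N + 1 : ℕ) : ℤ) ∪ Ioo (0 : ℤ) q := by
      ext x
      simp only [Finset.mem_erase, Finset.mem_union, Finset.mem_Ioo]
      omega
    have h7 : Disjoint (Ioo q ((N + 1 : ℕ) : ℤ)) (Ioo (0 : ℤ) q) := by
      rw [Finset.disjoint_left]
      intro x hx hx'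
      simp only [Finset.mem_Ioo] at hx hx'
      omega
    have h8 := P_turn v v (Ioo (0 : ℤ) q) ((N + 1 : ℕ) : ℤ) hp
    have h9 : P v (Ioo q (q + ((N + 1 : ℕ) : ℤ))) = C ((-1) ^ (Ioo (0 : ℤ) q).card) *
        (S (v (N + 1 : ℕ)) * P v ((Ioo (0 : ℤ) ((N + 1 : ℕ) : ℤ)).erase q)) := by
      rw [h3, h6]
      unfold P at h8 ⊢
      rw [Finset.prod_insert h4, Finset.prod_union h5, Finset.prod_union h7, h8]
      ring
    rw [h9, gC] at h2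
    have h10 : ((-1 : ℝ)) ^ (Ioo (0 : ℤ) q).card ≠ 0 := pow_ne_zero _ (by norm_num)
    exact (mul_eq_zero.1 h2).resolve_left h10)
  rw [hc] at h1
  exact h1

/-- the sign of the slopes of an ideal polygon -/
theorem ideal_tau (hN : 1 ≤ N) (hv : StrictMono v)
    (hp : ∀ l : ℤ, v (l + (N + 1 : ℕ)) = v l + 2 * Real.pi) (g : ℝ[X] →ₗ[ℝ] ℝ)
    (hz : ∀ f ∈ degreeLT ℝ N, g (S (v (N + 1 : ℕ)) * f) = 0) {q : ℤ}
    (hq : q ∈ Ioo (0 : ℤ) (N + 1 : ℕ)) :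
    ∃ c : ℝ, 0 < c ∧ tau (N + 1) (fun _ l => v l) g q (N + 1 : ℕ) =
      -(c * g (K (v (N + 1 : ℕ)) ^ N)) := by
  rw [Finset.mem_Ioo] at hq
  have h3 : (Ioo q (q + ((N + 1 : ℕ) : ℤ))).erase ((N + 1 : ℕ) : ℤ) =
      Ioo q ((N + 1 : ℕ) : ℤ) ∪ Ioo ((N + 1 : ℕ) : ℤ) (q + ((N + 1 : ℕ) : ℤ)) := by
    ext x
    simp only [Finset.mem_erase, Finset.mem_union, Finset.mem_Ioo]
    omega
  have h5 : Disjoint (Ioo q ((N + 1 : ℕ) : ℤ))
      (Ioo ((N + 1 : ℕ) : ℤ) (q + ((N + 1 : ℕ) : ℤ))) := by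
    rw [Finset.disjoint_left]
    intro x hx hx'
    simp only [Finset.mem_Ioo] at hx hx'
    omega
  have hc : ((Ioo q (q + ((N + 1 : ℕ) : ℤ))).erase ((N + 1 : ℕ) : ℤ)).card = N - 1 := by
    rw [Finset.card_erase_of_mem (Finset.mem_Ioo.2 ⟨hq.2, by omega⟩), Int.card_Ioo]
    omega
  have h1 := ev_prod g (v (N + 1 : ℕ)) N hz v
    ((Ioo q (q + ((N + 1 : ℕ) : ℤ))).erase ((N + 1 : ℕ) : ℤ)) (by omega)
  rw [hc, show N - (N - 1) = 1 by omega, pow_one] at h1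
  unfold tau
  rw [h1, h3, Finset.prod_union h5]
  have hA : 0 < ∏ l ∈ Ioo q ((N + 1 : ℕ) : ℤ), -Real.sin ((v l - v (N + 1 : ℕ)) / 2) := by
    apply Finset.prod_pos
    intro l hl
    rw [Finset.mem_Ioo] at hl
    have := sin_ne_of_lt hv hp hl.2 (by omega)
    have e : (v l - v (N + 1 : ℕ)) / 2 = -((v (N + 1 : ℕ) - v l) / 2) := by ring
    rw [e, Real.sin_neg, neg_neg]
    exact this
  have hB : 0 < ∏ l ∈ Ioo ((N + 1 : ℕ) : ℤ) (q + ((N + 1 : ℕ) : ℤ)),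
      Real.sin ((v l - v (N + 1 : ℕ)) / 2) := by
    apply Finset.prod_pos
    intro l hl
    rw [Finset.mem_Ioo] at hl
    exact sin_ne_of_lt hv hp hl.1 (by omega)
  have hBc : (Ioo ((N + 1 : ℕ) : ℤ) (q + ((N + 1 : ℕ) : ℤ))).card = (q - 1).toNat := by
    rw [Int.card_Ioo]
    congr 1
    omega
  have hB' : (∏ l ∈ Ioo ((N + 1 : ℕ) : ℤ) (q + ((N + 1 : ℕ) : ℤ)),
      -Real.sin ((v l - v (N + 1 : ℕ)) / 2)) = -sg q *
      ∏ l ∈ Ioo ((N + 1 : ℕ) : ℤ) (q + ((N + 1 : ℕ) : ℤ)),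
        Real.sin ((v l - v (N + 1 : ℕ)) / 2) := by
    have e1 : ∀ l ∈ Ioo ((N + 1 : ℕ) : ℤ) (q + ((N + 1 : ℕ) : ℤ)),
        -Real.sin ((v l - v (N + 1 : ℕ)) / 2) = -1 * Real.sin ((v l - v (N + 1 : ℕ)) / 2) := by
      intro l _; ring
    rw [Finset.prod_congr rfl e1, Finset.prod_mul_distrib, Finset.prod_const, hBc, ← sg_nat]
    congr 1
    rw [Int.toNat_of_nonneg (by omega), sg_pred]
  refine ⟨(∏ l ∈ Ioo q ((N + 1 : ℕ) : ℤ), -Real.sin ((v l - v (N + 1 : ℕ)) / 2)) *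
    ∏ l ∈ Ioo ((N + 1 : ℕ) : ℤ) (q + ((N + 1 : ℕ) : ℤ)),
      Real.sin ((v l - v (N + 1 : ℕ)) / 2), mul_pos hA hB, ?_⟩
  rw [hB']
  have h6 := sg_sq q
  linear_combination (-(∏ l ∈ Ioo q ((N + 1 : ℕ) : ℤ), -Real.sin ((v l - v (N + 1 : ℕ)) / 2)) *
    (∏ l ∈ Ioo ((N + 1 : ℕ) : ℤ) (q + ((N + 1 : ℕ) : ℤ)),
      Real.sin ((v l - v (N + 1 : ℕ)) / 2)) * g (K (v (N + 1 : ℕ)) ^ N)) * h6

/-- the sign of the value at the missing row -/
theorem ideal_d (hv : StrictMono v)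
    (hp : ∀ l : ℤ, v (l + (N + 1 : ℕ)) = v l + 2 * Real.pi) (g : ℝ[X] →ₗ[ℝ] ℝ)
    (hz : ∀ f ∈ degreeLT ℝ N, g (S (v (N + 1 : ℕ)) * f) = 0) :
    ∃ c : ℝ, 0 < c ∧ sg (N + 1 : ℕ) * g (P v (Ioo ((N + 1 : ℕ) : ℤ)
      (((N + 1 : ℕ) : ℤ) + ((N + 1 : ℕ) : ℤ)))) = -(c * g (K (v (N + 1 : ℕ)) ^ N)) := by
  have hc : (Ioo ((N + 1 : ℕ) : ℤ) (((N + 1 : ℕ) : ℤ) + ((N + 1 : ℕ) : ℤ))).card = N := by
    rw [Int.card_Ioo]
    omega
  have h1 := ev_prod g (v (N + 1 : ℕ)) N hz v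
    (Ioo ((N + 1 : ℕ) : ℤ) (((N + 1 : ℕ) : ℤ) + ((N + 1 : ℕ) : ℤ))) hc.le
  rw [hc, Nat.sub_self, pow_zero, mul_one] at h1
  have hB : 0 < ∏ l ∈ Ioo ((N + 1 : ℕ) : ℤ) (((N + 1 : ℕ) : ℤ) + ((N + 1 : ℕ) : ℤ)),
      Real.sin ((v l - v (N + 1 : ℕ)) / 2) := by
    apply Finset.prod_pos
    intro l hl
    rw [Finset.mem_Ioo] at hl
    exact sin_ne_of_lt hv hp hl.1 (by omega)
  refine ⟨_, hB, ?_⟩
  rw [h1]
  have e1 : ∀ l ∈ Ioo ((N + 1 : ℕ) : ℤ) (((N + 1 : ℕ) : ℤ) + ((N + 1 : ℕ) : ℤ)),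
      -Real.sin ((v l - v (N + 1 : ℕ)) / 2) = -1 * Real.sin ((v l - v (N + 1 : ℕ)) / 2) := by
    intro l _; ring
  rw [Finset.prod_congr rfl e1, Finset.prod_mul_distrib, Finset.prod_const, hc, ← sg_nat]
  have h2 : sg ((N + 1 : ℕ) : ℤ) = -sg (N : ℤ) := by
    rw [← sg_succ]; push_cast; rfl
  rw [h2]
  have h6 := sg_sq (N : ℤ)
  linear_combination (-(∏ l ∈ Ioo ((N + 1 : ℕ) : ℤ) (((N + 1 : ℕ) : ℤ) + ((N + 1 : ℕ) : ℤ)),
      Real.sin ((v l - v (N + 1 : ℕ)) / 2)) * g (K (v (N + 1 : ℕ)) ^ N)) * h6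

end

end Pool.Agent.H40.Atiyah
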