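import Pool.Agent.H40.Atiyah.Slope

/-!
# Functionals as vectors, and continuity
-/

set_option autoImplicit false

namespace Pool.Agent.H40.Atiyah

open Finset Polynomial

/-- the functional with values `a k` on the monomials -/
noncomputable def fn {m : ℕ} (a : Fin m → ℝ) : ℝ[X] →ₗ[ℝ] ℝ := ∑ k, a k • lcoeff ℝ (k : ℕ)

theorem fn_apply {m : ℕ} (a : Fin m → ℝ) (f : ℝ[X]) : fn a f = ∑ k, a k * f.coeff k := by
  unfold fn
  simp [LinearMap.sum_apply]

theorem fn_monomial {m : ℕ} (a : Fin m → ℝ) (k : Fin m) : fn a (X ^ (k : ℕ)) = a k := by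
  rw [fn_apply, Finset.sum_eq_single k]
  · simp
  · intro b _ hb
    have : (b : ℕ) ≠ (k : ℕ) := fun h => hb (Fin.ext h)
    simp [coeff_X_pow, this]
  · intro h; exact absurd (Finset.mem_univ k) h

theorem fn_ne {m : ℕ} {a : Fin m → ℝ} (ha : a ≠ 0) : ¬ ∀ f ∈ degreeLT ℝ m, fn a f = 0 := by
  intro h
  apply ha
  funext k
  have h1 := h (X ^ (k : ℕ)) (by
    rw [mem_degreeLT]
    exact (degree_X_pow_le _).trans_lt (by exact_mod_cast k.2))
  rw [fn_monomial] at h1
  exact h1

theorem fn_eq {m : ℕ} (g : ℝ[X] →ₗ[ℝ] ℝ) : ∀ f ∈ degreeLT ℝ m,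
    fn (fun k : Fin m => g (X ^ (k : ℕ))) f = g f := by
  intro f hf
  have h1 : f = ∑ k : Fin m, C (f.coeff k) * X ^ (k : ℕ) := by
    rw [mem_degreeLT, degree_lt_iff_coeff_zero] at hf
    ext j
    rw [finsetSum_coeff]
    simp only [coeff_C_mul, coeff_X_pow]
    by_cases hj : j < m
    · rw [Finset.sum_eq_single (⟨j, hj⟩ : Fin m)]
      · simp
      · intro b _ hb
        have : j ≠ (b : ℕ) := fun h => hb (Fin.ext h.symm)
        simp [this]
      · intro h; exact absurd (Finset.mem_univ _) h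
    · rw [hf j (by omega)]
      symm
      apply Finset.sum_eq_zero
      intro b _
      have : j ≠ (b : ℕ) := fun h => hj (h ▸ b.2)
      simp [this]
  rw [fn_apply]
  conv_rhs => rw [h1, map_sum]
  refine Finset.sum_congr rfl fun k _ => ?_
  rw [gC, mul_comm]

/-- families of polynomials with continuous coefficients -/
def CC (F : ℝ → ℝ[X]) : Prop := ∀ k, Continuous fun t => (F t).coeff k

theorem CC.mul {F G : ℝ → ℝ[X]} (hF : CC F) (hG : CC G) : CC (fun t => F t * G t) := by
  intro k
  simp only [coeff_mul]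
  exact continuous_finsetSum _ fun p _ => (hF p.1).mul (hG p.2)

theorem CC_S {x : ℝ → ℝ} (hx : Continuous x) : CC (fun t => S (x t)) := by
  intro k
  unfold S
  simp only [coeff_sub, coeff_C_mul, coeff_C]
  refine Continuous.sub ((Real.continuous_cos.comp (hx.div_const 2)).mul continuous_const) ?_
  split_ifs
  · exact Real.continuous_sin.comp (hx.div_const 2)
  · exact continuous_const

theorem CC_K {x : ℝ → ℝ} (hx : Continuous x) : CC (fun t => K (x t)) := by
  intro k
  unfold K
  simp only [coeff_add, coeff_C_mul, coeff_C]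
  refine Continuous.add ((Real.continuous_sin.comp (hx.div_const 2)).mul continuous_const) ?_
  split_ifs
  · exact Real.continuous_cos.comp (hx.div_const 2)
  · exact continuous_const

theorem CC_P {x : ℝ → ℤ → ℝ} (hx : ∀ l, Continuous fun t => x t l) (L : Finset ℤ) :
    CC (fun t => P (x t) L) := by
  induction L using Finset.induction_on with
  | empty =>
    intro k
    unfold P
    simp only [Finset.prod_empty]
    exact continuous_const
  | insert a L ha ih =>
    have : (fun t => P (x t) (insert a L)) = fun t => S (x t a) * P (x t) L := by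
      funext t
      unfold P
      rw [Finset.prod_insert ha]
    rw [this]
    exact (CC_S (hx a)).mul ih

theorem cont_fn {m : ℕ} {F : ℝ → ℝ[X]} (hF : CC F) :
    Continuous fun p : ℝ × (Fin m → ℝ) => fn p.2 (F p.1) := by
  simp only [fn_apply]
  exact continuous_finsetSum _ fun k _ =>
    ((continuous_apply k).comp continuous_snd).mul ((hF k).comp continuous_fst)

theorem cont_tau {m n : ℕ} {A : ℝ → ℤ → ℤ → ℝ} (hA : ∀ i l, Continuous fun t => A t i l)
    (i l : ℤ) : Continuous fun p : ℝ × (Fin m → ℝ) => tau n (A p.1) (fn p.2) i l := by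
  unfold tau
  exact continuous_const.mul (cont_fn ((CC_P (fun l => hA i l) _).mul (CC_K (hA i l))))

/-- a functional killing `N` given polynomials -/
theorem exists_kill (N : ℕ) (R : ℤ → ℝ[X]) : ∃ a : Fin (N + 1) → ℝ, ‖a‖ = 1 ∧
    ∀ q ∈ Ioo (0 : ℤ) (N + 1 : ℕ), fn a (R q) = 0 := by
  let Φ : (Fin (N + 1) → ℝ) →ₗ[ℝ] (Fin N → ℝ) :=
    { toFun := fun a k => fn a (R ((k : ℕ) + 1))
      map_add' := by
        intro a b
        funext k
        simp only [fn_apply, Pi.add_apply, add_mul, Finset.sum_add_distrib]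
      map_smul' := by
        intro c a
        funext k
        simp only [fn_apply, Pi.smul_apply, smul_eq_mul, RingHom.id_apply, mul_assoc,
          Finset.mul_sum] }
  have h1 : LinearMap.ker Φ ≠ ⊥ := LinearMap.ker_ne_bot_of_finrank_lt (by simp)
  obtain ⟨a, ha, ha0⟩ := Submodule.exists_mem_ne_zero_of_ne_bot h1
  have hn : ‖a‖ ≠ 0 := norm_ne_zero_iff.2 ha0
  refine ⟨‖a‖⁻¹ • a, ?_, ?_⟩
  · rw [norm_smul, norm_inv, norm_norm, inv_mul_cancel₀ hn]
  · intro q hq
    rw [Finset.mem_Ioo] at hq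
    have h2 : Φ a = 0 := ha
    have h3 := congrFun h2 ⟨(q - 1).toNat, by omega⟩
    have h4 : fn a (R q) = 0 := by
      have h5 : ((((⟨(q - 1).toNat, by omega⟩ : Fin N) : ℕ) : ℤ) + 1) = q := by
        simp only
        rw [Int.toNat_of_nonneg (by omega)]
        ring
      have h6 : fn a (R ((((⟨(q - 1).toNat, by omega⟩ : Fin N) : ℕ) : ℤ) + 1)) = 0 := h3
      rw [h5] at h6
      exact h6
    have h7 : fn (‖a‖⁻¹ • a) (R q) = ‖a‖⁻¹ * fn a (R q) := by
      simp only [fn_apply, Pi.smul_apply, smul_eq_mul, Finset.mul_sum, mul_assoc]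
    rw [h7, h4, mul_zero]

end Pool.Agent.H40.Atiyah
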