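import Pool.Agent.H40.Atiyah.Homotopy

/-!
# The determinant does not vanish
-/

set_option autoImplicit false

namespace Pool.Agent.H40.Atiyah

open Finset Polynomial

section

variable {N : ℕ} {u : ℤ → ℤ → ℝ}

theorem row_shift (u : ℤ → ℤ → ℝ) (n k q : ℤ) :
    P (fun j => u (q + k) (j + k)) (Ioo q (q + n)) = P (u (q + k)) (Ioo (q + k) (q + k + n)) := by
  rw [P_image (u (q + k)) (fun j => j + k) (add_left_injective _)]
  rw [show (Ioo q (q + n)).image (fun j => j + k) = (Ioo q (q + n)).image (· + k) from rfl,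
    Ioo_image]

theorem tau_shift (u : ℤ → ℤ → ℝ) (n : ℕ) (g : ℝ[X] →ₗ[ℝ] ℝ) (k q l : ℤ) :
    tau n (fun i j => u (i + k) (j + k)) g q l = sg k * tau n u g (q + k) (l + k) := by
  unfold tau
  rw [P_image (u (q + k)) (fun j => j + k) (add_left_injective _)]
  rw [show ((Ioo q (q + (n : ℤ))).erase l).image (fun j => j + k) =
    ((Ioo q (q + (n : ℤ))).erase l).image (· + k) from rfl, erase_Ioo_image, sg_add]
  have := sg_sq k
  linear_combination (-(sg q * g (P (u (q + k)) ((Ioo (q + k) (q + k + (n : ℤ))).erase (l + k)) *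
    K (u (q + k) (l + k))))) * this

theorem kill_iff {n : ℕ} (H : KArr n u) (g : ℝ[X] →ₗ[ℝ] ℝ) (i : ℤ) :
    g (P (u (i + n)) (Ioo (i + n) (i + n + n))) = 0 ↔ g (P (u i) (Ioo i (i + n))) = 0 := by
  constructor
  · intro h
    rw [← Ioo_image i n n, P_turn (u i) (u (i + n)) _ _ (fun j => H.per i j), gC] at h
    exact (mul_eq_zero.1 h).resolve_left (pow_ne_zero _ (by norm_num))
  · exact kill_add H g i

theorem kill_all {n : ℕ} (hn : 1 ≤ n) (H : KArr n u) (g : ℝ[X] →ₗ[ℝ] ℝ)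
    (h : ∀ q ∈ Ico (0 : ℤ) n, g (P (u q) (Ioo q (q + n))) = 0) (q : ℤ) :
    g (P (u q) (Ioo q (q + n))) = 0 := by
  have h1 : ∀ m : ℤ, g (P (u (q % n + n * m)) (Ioo (q % n + n * m) (q % n + n * m + n))) = 0 := by
    intro m
    induction m using Int.induction_on with
    | zero =>
      rw [mul_zero, add_zero]
      exact h _ (Finset.mem_Ico.2 ⟨Int.emod_nonneg _ (by omega), Int.emod_lt_of_pos _ (by omega)⟩)
    | succ m ih =>
      have := (kill_iff H g (q % n + n * m)).2 ih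
      rw [show q % (n : ℤ) + n * ((m : ℤ) + 1) = q % n + n * m + n by ring]
      exact this
    | pred m ih =>
      apply (kill_iff H g (q % n + n * (-(m : ℤ) - 1))).1
      rw [show q % (n : ℤ) + n * (-(m : ℤ) - 1) + n = q % n + n * -m by ring]
      exact ih
  have h2 := h1 (q / n)
  rw [Int.emod_add_mul_ediv] at h2
  exact h2

/-- a functional killing all rows is zero -/
theorem dne (hN : 2 ≤ N) (hPP : PP N) (H : KArr (N + 1) u) (g : ℝ[X] →ₗ[ℝ] ℝ)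
    (hall : ∀ q : ℤ, g (P (u q) (Ioo q (q + (N + 1 : ℕ)))) = 0) :
    ∀ f ∈ degreeLT ℝ (N + 1), g f = 0 := by
  by_contra hne
  have h1 : ∀ k : ℤ, 0 < tau (N + 1) u g (k + 1) (k + 2) * tau (N + 1) u g (k + 2) (k + 3) := by
    intro k
    have h2 := sgn_full hN hPP (H.shift k) g (fun q _ => by
      rw [row_shift]; exact hall _) hne
    have m1 : (1 : ℤ) ∈ Ioo (0 : ℤ) (N + 1 : ℕ) := Finset.mem_Ioo.2 ⟨by omega, by push_cast; omega⟩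
    have m2 : (2 : ℤ) ∈ Ioo (0 : ℤ) (N + 1 : ℕ) := Finset.mem_Ioo.2 ⟨by omega, by push_cast; omega⟩
    have m3 : (2 : ℤ) ∈ Ioo (1 : ℤ) (1 + ((N + 1 : ℕ) : ℤ)) :=
      Finset.mem_Ioo.2 ⟨by omega, by push_cast; omega⟩
    have m4 : (3 : ℤ) ∈ Ioo (2 : ℤ) (2 + ((N + 1 : ℕ) : ℤ)) :=
      Finset.mem_Ioo.2 ⟨by omega, by push_cast; omega⟩
    have h3 := sg_sq k
    have e : tau (N + 1) u g (k + 1) (k + 2) * tau (N + 1) u g (k + 2) (k + 3) =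
        (sg k * tau (N + 1) u g (1 + k) (2 + k)) * (sg k * tau (N + 1) u g (2 + k) (3 + k)) := by
      rw [add_comm 1 k, add_comm 2 k, add_comm 3 k]
      linear_combination (-(tau (N + 1) u g (k + 1) (k + 2) *
        tau (N + 1) u g (k + 2) (k + 3))) * h3
    rw [e]
    rcases h2 with h2 | h2
    · have a1 := h2 1 m1 2 m3
      have a2 := h2 2 m2 3 m4
      rw [tau_shift] at a1 a2
      exact mul_pos a1 a2
    · have a1 := h2 1 m1 2 m3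
      have a2 := h2 2 m2 3 m4
      rw [tau_shift] at a1 a2
      exact mul_pos_of_neg_of_neg a1 a2
  have h2 : ∀ m : ℕ, 0 < tau (N + 1) u g 0 1 * tau (N + 1) u g m (m + 1) := by
    intro m
    induction m with
    | zero =>
      have h3 := h1 (-1)
      norm_num at h3 ⊢
      have : tau (N + 1) u g 0 1 ≠ 0 := by
        intro h
        rw [h, zero_mul] at h3
        exact lt_irrefl _ h3
      exact this
    | succ m ih =>
      have h3 := h1 ((m : ℤ) - 1)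
      rw [show (m : ℤ) - 1 + 1 = m by ring, show (m : ℤ) - 1 + 2 = m + 1 by ring,
        show (m : ℤ) - 1 + 3 = m + 1 + 1 by ring] at h3
      push_cast
      have h4 := mul_pos ih h3
      have h5 : 0 < tau (N + 1) u g m (m + 1) ^ 2 * (tau (N + 1) u g 0 1 *
          tau (N + 1) u g (m + 1) (m + 1 + 1)) := by
        calc (0 : ℝ) < _ := h4
          _ = _ := by ring
      exact pos_of_mul_pos_right h5 (sq_nonneg _)
  have h3 := h2 (N + 1)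
  have h4 := tau_add H g 0 1 (Finset.mem_Ioo.2 ⟨by omega, by push_cast; omega⟩)
  rw [show (0 : ℤ) + ((N + 1 : ℕ) : ℤ) = ((N + 1 : ℕ) : ℤ) by ring,
    show (1 : ℤ) + ((N + 1 : ℕ) : ℤ) = ((N + 1 : ℕ) : ℤ) + 1 by ring] at h4
  rw [h4] at h3
  nlinarith [mul_self_nonneg (tau (N + 1) u g 0 1)]

theorem dne' (hN : 2 ≤ N) (hPP : PP N) (H : KArr (N + 1) u) (g : ℝ[X] →ₗ[ℝ] ℝ)
    (hg : ∀ q ∈ Ioo (0 : ℤ) (N + 1 : ℕ), g (P (u q) (Ioo q (q + (N + 1 : ℕ)))) = 0)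
    (hd : g (P (u (N + 1 : ℕ)) (Ioo ((N + 1 : ℕ) : ℤ) (((N + 1 : ℕ) : ℤ) + ((N + 1 : ℕ) : ℤ)))) = 0) :
    ∀ f ∈ degreeLT ℝ (N + 1), g f = 0 := by
  apply dne hN hPP H g
  apply kill_all (by omega) H g
  intro q hq
  rw [Finset.mem_Ico] at hq
  rcases eq_or_lt_of_le hq.1 with h | h
  · rw [← h]
    apply (kill_iff H g 0).1
    rw [zero_add]
    exact hd
  · exact hg q (Finset.mem_Ioo.2 ⟨h, hq.2⟩)

/-- the sign at the missing row -/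
theorem dpos (hN : 2 ≤ N) (hPP : PP N) (H : KArr (N + 1) u) (g : ℝ[X] →ₗ[ℝ] ℝ)
    (hg : ∀ q ∈ Ioo (0 : ℤ) (N + 1 : ℕ), g (P (u q) (Ioo q (q + (N + 1 : ℕ)))) = 0)
    (hne : ¬ ∀ f ∈ degreeLT ℝ (N + 1), g f = 0)
    (ht : ∀ q ∈ Ioo (0 : ℤ) (N + 1 : ℕ), 0 ≤ tau (N + 1) u g q (N + 1 : ℕ)) :
    0 < sg (N + 1 : ℕ) * g (P (u (N + 1 : ℕ)) (Ioo ((N + 1 : ℕ) : ℤ)
      (((N + 1 : ℕ) : ℤ) + ((N + 1 : ℕ) : ℤ)))) := by
  set A := path N u with hAdef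
  have hA : ∀ i l, Continuous fun t => A t i l := path_cont
  have hSgn : ∀ t, 0 ≤ t → t ≤ 1 → Sgn N (A t) := by
    intro t h0 h1
    rcases eq_or_lt_of_le h0 with h | h
    · rw [← h, hAdef, path_zero]; exact ideal_sgn (by omega) vmono vper
    · exact sgn_all hN hPP (path_karr H h h1)
  have hckill : ∀ q : ℤ, Continuous fun p : ℝ × (Fin (N + 1) → ℝ) =>
      fn p.2 (P (A p.1 q) (Ioo q (q + (N + 1 : ℕ)))) := fun q =>
    cont_fn (CC_P (fun l => hA q l) _)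
  have hctau : ∀ q : ℤ, Continuous fun p : ℝ × (Fin (N + 1) → ℝ) =>
      tau (N + 1) (A p.1) (fn p.2) q (N + 1 : ℕ) := fun q => cont_tau hA q _
  have hcd : Continuous fun p : ℝ × (Fin (N + 1) → ℝ) =>
      sg (N + 1 : ℕ) * fn p.2 (P (A p.1 (N + 1 : ℕ)) (Ioo ((N + 1 : ℕ) : ℤ)
        (((N + 1 : ℕ) : ℤ) + ((N + 1 : ℕ) : ℤ)))) := continuous_const.mul (hckill _)
  have hcl : IsClosed ({p : ℝ × (Fin (N + 1) → ℝ) | ∀ q ∈ Ioo (0 : ℤ) (N + 1 : ℕ),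
      fn p.2 (P (A p.1 q) (Ioo q (q + (N + 1 : ℕ)))) = 0} ∩
      {p | ∀ q ∈ Ioo (0 : ℤ) (N + 1 : ℕ), 0 ≤ tau (N + 1) (A p.1) (fn p.2) q (N + 1 : ℕ)}) := by
    refine IsClosed.inter ?_ ?_
    · simp only [Set.ofPred_forall]
      exact isClosed_biInter fun q _ => isClosed_eq (hckill q) continuous_const
    · simp only [Set.ofPred_forall]
      exact isClosed_biInter fun q _ => isClosed_le continuous_const (hctau q)
  have hcomp : IsCompact (Set.Icc (0 : ℝ) 1 ×ˢ Metric.sphere (0 : Fin (N + 1) → ℝ) 1) :=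
    isCompact_Icc.prod (isCompact_sphere _ _)
  set T : Set ℝ := Prod.fst '' ((Set.Icc (0 : ℝ) 1 ×ˢ Metric.sphere (0 : Fin (N + 1) → ℝ) 1) ∩
    (({p | ∀ q ∈ Ioo (0 : ℤ) (N + 1 : ℕ), fn p.2 (P (A p.1 q) (Ioo q (q + (N + 1 : ℕ)))) = 0} ∩
    {p | ∀ q ∈ Ioo (0 : ℤ) (N + 1 : ℕ), 0 ≤ tau (N + 1) (A p.1) (fn p.2) q (N + 1 : ℕ)}) ∩
    {p | 0 ≤ sg (N + 1 : ℕ) * fn p.2 (P (A p.1 (N + 1 : ℕ)) (Ioo ((N + 1 : ℕ) : ℤ)
        (((N + 1 : ℕ) : ℤ) + ((N + 1 : ℕ) : ℤ))))})) with hT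
  set B : Set ℝ := Prod.fst '' ((Set.Icc (0 : ℝ) 1 ×ˢ Metric.sphere (0 : Fin (N + 1) → ℝ) 1) ∩
    (({p | ∀ q ∈ Ioo (0 : ℤ) (N + 1 : ℕ), fn p.2 (P (A p.1 q) (Ioo q (q + (N + 1 : ℕ)))) = 0} ∩
    {p | ∀ q ∈ Ioo (0 : ℤ) (N + 1 : ℕ), 0 ≤ tau (N + 1) (A p.1) (fn p.2) q (N + 1 : ℕ)}) ∩
    {p | sg (N + 1 : ℕ) * fn p.2 (P (A p.1 (N + 1 : ℕ)) (Ioo ((N + 1 : ℕ) : ℤ)
        (((N + 1 : ℕ) : ℤ) + ((N + 1 : ℕ) : ℤ)))) ≤ 0})) with hB
  have hTc : IsClosed T := IsCompact.isClosed ((hcomp.inter_right (hcl.inter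
    (isClosed_le continuous_const hcd))).image continuous_fst)
  have hBc : IsClosed B := IsCompact.isClosed ((hcomp.inter_right (hcl.inter
    (isClosed_le hcd continuous_const))).image continuous_fst)
  have hneg : ∀ (a : Fin (N + 1) → ℝ) (f : ℝ[X]), fn (-a) f = -fn a f := by
    intro a f
    simp only [fn_apply, Pi.neg_apply, neg_mul, Finset.sum_neg_distrib]
  have htneg : ∀ (t : ℝ) (a : Fin (N + 1) → ℝ) (q l : ℤ),
      tau (N + 1) (A t) (fn (-a)) q l = -tau (N + 1) (A t) (fn a) q l := by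
    intro t a q l
    unfold tau
    rw [hneg]; ring
  have hne0 : ∀ a : Fin (N + 1) → ℝ, a ∈ Metric.sphere (0 : Fin (N + 1) → ℝ) 1 → a ≠ 0 := by
    rintro a ha rfl
    simp at ha
  have hcov : Set.Icc (0 : ℝ) 1 ⊆ T ∪ B := by
    intro t ht'
    obtain ⟨a, ha, hk⟩ := exists_kill N (fun q => P (A t q) (Ioo q (q + (N + 1 : ℕ))))
    have has : a ∈ Metric.sphere (0 : Fin (N + 1) → ℝ) 1 := by simpa using ha
    -- a positive unit vector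
    obtain ⟨b, hbs, hbk, hbt⟩ : ∃ b : Fin (N + 1) → ℝ,
        b ∈ Metric.sphere (0 : Fin (N + 1) → ℝ) 1 ∧
        (∀ q ∈ Ioo (0 : ℤ) (N + 1 : ℕ), fn b (P (A t q) (Ioo q (q + (N + 1 : ℕ)))) = 0) ∧
        (∀ q ∈ Ioo (0 : ℤ) (N + 1 : ℕ), 0 ≤ tau (N + 1) (A t) (fn b) q (N + 1 : ℕ)) := by
      rcases hSgn t ht'.1 ht'.2 (fn a) hk (fn_ne (hne0 a has)) with h | h
      · exact ⟨a, has, hk, fun q hq => (h q hq).le⟩
      · refine ⟨-a, by simpa using ha, fun q hq => ?_, fun q hq => ?_⟩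
        · rw [hneg, hk q hq, neg_zero]
        · rw [htneg]
          have := h q hq
          linarith
    rcases le_total 0 (sg (N + 1 : ℕ) * fn b (P (A t (N + 1 : ℕ)) (Ioo ((N + 1 : ℕ) : ℤ)
        (((N + 1 : ℕ) : ℤ) + ((N + 1 : ℕ) : ℤ))))) with h | h
    · left
      exact ⟨(t, b), ⟨⟨ht', hbs⟩, ⟨hbk, hbt⟩, h⟩, rfl⟩
    · right
      exact ⟨(t, b), ⟨⟨ht', hbs⟩, ⟨hbk, hbt⟩, h⟩, rfl⟩
  -- the ideal polygon
  have hzero : ∀ a : Fin (N + 1) → ℝ, a ∈ Metric.sphere (0 : Fin (N + 1) → ℝ) 1 →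
      (∀ q ∈ Ioo (0 : ℤ) (N + 1 : ℕ), fn a (P (A 0 q) (Ioo q (q + (N + 1 : ℕ)))) = 0) →
      (∀ q ∈ Ioo (0 : ℤ) (N + 1 : ℕ), 0 ≤ tau (N + 1) (A 0) (fn a) q (N + 1 : ℕ)) →
      ¬ sg (N + 1 : ℕ) * fn a (P (A 0 (N + 1 : ℕ)) (Ioo ((N + 1 : ℕ) : ℤ)
        (((N + 1 : ℕ) : ℤ) + ((N + 1 : ℕ) : ℤ)))) ≤ 0 := by
    intro a has hk htt hd
    rw [hAdef, path_zero] at hk htt hd
    have hz := ideal_ev vmono vper (fn a) hk
    have m1 : (1 : ℤ) ∈ Ioo (0 : ℤ) (N + 1 : ℕ) := Finset.mem_Ioo.2 ⟨by omega, by push_cast; omega⟩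
    obtain ⟨c, hc, h1⟩ := ideal_tau (by omega) vmono vper (fn a) hz m1
    obtain ⟨c', hc', h2⟩ := ideal_d vmono vper (fn a) hz
    have h3 := htt 1 m1
    rw [h1] at h3
    rw [h2] at hd
    have h4 : fn a (K ((fun l : ℤ => (l : ℝ) * (2 * Real.pi / (N + 1))) (N + 1 : ℕ)) ^ N) ≤ 0 := by
      by_contra hcc
      push Not at hcc
      have := mul_pos hc hcc
      linarith
    have h5 : 0 ≤ fn a (K ((fun l : ℤ => (l : ℝ) * (2 * Real.pi / (N + 1))) (N + 1 : ℕ)) ^ N) := by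
      by_contra hcc
      push Not at hcc
      have := mul_neg_of_pos_of_neg hc' hcc
      linarith
    exact fn_ne (hne0 a has) (ev_zero (fn a) _ N hz (le_antisymm h4 h5))
  have hT0 : (Set.Icc (0 : ℝ) 1 ∩ T).Nonempty := by
    refine ⟨0, ⟨le_refl _, zero_le_one⟩, ?_⟩
    rcases hcov (⟨le_refl _, zero_le_one⟩ : (0 : ℝ) ∈ Set.Icc (0 : ℝ) 1) with h | h
    · exact h
    · exfalso
      obtain ⟨⟨t, a⟩, ⟨⟨_, has⟩, ⟨hk, htt⟩, hd⟩, h7⟩ := h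
      simp only at h7
      subst h7
      exact hzero a has hk htt hd
  by_contra hcon
  push Not at hcon
  have hB1 : (Set.Icc (0 : ℝ) 1 ∩ B).Nonempty := by
    refine ⟨1, ⟨zero_le_one, le_refl _⟩, ?_⟩
    set b : Fin (N + 1) → ℝ := fun k => g (X ^ (k : ℕ)) with hb
    have hfb : ∀ f ∈ degreeLT ℝ (N + 1), fn b f = g f := fn_eq g
    have hb0 : b ≠ 0 := by
      intro h
      apply hne
      intro f hf
      rw [← hfb f hf, h]
      simp [fn_apply]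
    have hbn : ‖b‖ ≠ 0 := norm_ne_zero_iff.2 hb0
    have hbp : 0 < ‖b‖⁻¹ := inv_pos.2 (lt_of_le_of_ne (norm_nonneg b) hbn.symm)
    have hsm : ∀ f : ℝ[X], fn (‖b‖⁻¹ • b) f = ‖b‖⁻¹ * fn b f := by
      intro f
      simp only [fn_apply, Pi.smul_apply, smul_eq_mul, Finset.mul_sum, mul_assoc]
    have hmem : ∀ q ∈ Ioo (0 : ℤ) (N + 1 : ℕ),
        ((N + 1 : ℕ) : ℤ) ∈ Ioo q (q + ((N + 1 : ℕ) : ℤ)) := by
      intro q hq
      rw [Finset.mem_Ioo] at hq ⊢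
      omega
    have hA1 : A 1 = u := path_one
    have htsm : ∀ q ∈ Ioo (0 : ℤ) (N + 1 : ℕ),
        tau (N + 1) (A 1) (fn (‖b‖⁻¹ • b)) q (N + 1 : ℕ) =
          ‖b‖⁻¹ * tau (N + 1) (A 1) g q (N + 1 : ℕ) := by
      intro q hq
      rw [← tau_congr (A 1) hfb (hmem q hq)]
      unfold tau
      rw [hsm]; ring
    refine ⟨(1, ‖b‖⁻¹ • b), ⟨⟨⟨zero_le_one, le_refl _⟩, ?_⟩, ⟨?_, ?_⟩, ?_⟩, rfl⟩
    · simp only [mem_sphere_iff_norm, sub_zero]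
      rw [norm_smul, norm_inv, norm_norm, inv_mul_cancel₀ hbn]
    · intro q hq
      simp only [hsm]
      rw [hfb _ (P_mem _ _ (by rw [Int.card_Ioo]; omega)), hA1, hg q hq, mul_zero]
    · intro q hq
      simp only [htsm q hq]
      rw [hA1]
      exact mul_nonneg hbp.le (ht q hq)
    · have e : sg ((N + 1 : ℕ) : ℤ) * fn (‖b‖⁻¹ • b) (P (A 1 (N + 1 : ℕ)) (Ioo ((N + 1 : ℕ) : ℤ)
          (((N + 1 : ℕ) : ℤ) + ((N + 1 : ℕ) : ℤ)))) =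
          ‖b‖⁻¹ * (sg (N + 1 : ℕ) * g (P (u (N + 1 : ℕ)) (Ioo ((N + 1 : ℕ) : ℤ)
      (((N + 1 : ℕ) : ℤ) + ((N + 1 : ℕ) : ℤ))))) := by
        rw [hsm, hfb _ (P_mem _ _ (by rw [Int.card_Ioo]; omega)), hA1]
        ring
      show sg ((N + 1 : ℕ) : ℤ) * fn (‖b‖⁻¹ • b) (P (A 1 (N + 1 : ℕ)) (Ioo ((N + 1 : ℕ) : ℤ)
          (((N + 1 : ℕ) : ℤ) + ((N + 1 : ℕ) : ℤ)))) ≤ 0
      rw [e]
      exact mul_nonpos_of_nonneg_of_nonpos hbp.le hcon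
  obtain ⟨t, htm, htT, htB⟩ := isPreconnected_closed_iff.1 isPreconnected_Icc T B hTc hBc hcov hT0 hB1
  obtain ⟨⟨t1, a1⟩, ⟨⟨_, has1⟩, ⟨hk1, hnn1⟩, hd1⟩, rfl⟩ := htT
  obtain ⟨⟨t2, a2⟩, ⟨⟨_, has2⟩, ⟨hk2, hnn2⟩, hd2⟩, h5⟩ := htB
  simp only at h5
  subst h5
  rcases eq_or_lt_of_le htm.1 with h6 | h6
  · have h7 : (t2 : ℝ) = 0 := h6.symm
    subst h7
    exact hzero a2 has2 hk2 hnn2 hd2
  have HA : KArr (N + 1) (A t2) := path_karr H h6 htm.2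
  have hmem : ∀ q ∈ Ioo (0 : ℤ) (N + 1 : ℕ),
      ((N + 1 : ℕ) : ℤ) ∈ Ioo q (q + ((N + 1 : ℕ) : ℤ)) := by
    intro q hq
    rw [Finset.mem_Ioo] at hq ⊢
    omega
  have m1 : (1 : ℤ) ∈ Ioo (0 : ℤ) (N + 1 : ℕ) := Finset.mem_Ioo.2 ⟨by omega, by push_cast; omega⟩
  have hp2 := key hN hPP HA (fn a2) hk2 (fn_ne (hne0 a2 has2)) hnn2 1 m1 _ (hmem 1 m1)
  set d1 := sg (N + 1 : ℕ) * fn a1 (P (A t2 (N + 1 : ℕ)) (Ioo ((N + 1 : ℕ) : ℤ)
        (((N + 1 : ℕ) : ℤ) + ((N + 1 : ℕ) : ℤ)))) with hd1def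
  set d2 := sg (N + 1 : ℕ) * fn a2 (P (A t2 (N + 1 : ℕ)) (Ioo ((N + 1 : ℕ) : ℤ)
        (((N + 1 : ℕ) : ℤ) + ((N + 1 : ℕ) : ℤ)))) with hd2def
  have hd1' : 0 ≤ d1 := hd1
  have hd2' : d2 ≤ 0 := hd2
  have hsgne : sg ((N + 1 : ℕ) : ℤ) ≠ 0 := by
    intro h
    have := sg_sq ((N + 1 : ℕ) : ℤ)
    rw [h] at this
    norm_num at this
  have hd1pos : 0 < d1 := by
    refine lt_of_le_of_ne hd1' fun h => ?_
    have h8 : fn a1 (P (A t2 (N + 1 : ℕ)) (Ioo ((N + 1 : ℕ) : ℤ)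
        (((N + 1 : ℕ) : ℤ) + ((N + 1 : ℕ) : ℤ)))) = 0 :=
      (mul_eq_zero.1 h.symm).resolve_left hsgne
    exact fn_ne (hne0 a1 has1) (dne' hN hPP HA (fn a1) hk1 h8)
  have hz := dne' hN hPP HA (d1 • fn a2 - d2 • fn a1)
    (by
      intro q hq
      have e1 := hk1 q hq
      have e2 := hk2 q hq
      simp only at e1 e2
      rw [LinearMap.sub_apply, LinearMap.smul_apply, LinearMap.smul_apply, e1, e2]
      simp)
    (by
      rw [LinearMap.sub_apply, LinearMap.smul_apply, LinearMap.smul_apply, smul_eq_mul,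
        smul_eq_mul]
      apply mul_left_cancel₀ hsgne
      rw [mul_zero, hd1def, hd2def]
      ring)
  have h9 := tau_congr (A t2) (g := d1 • fn a2 - d2 • fn a1) (g' := 0)
    (fun f hf => by rw [hz f hf]; rfl) (hmem 1 m1)
  rw [tau_sub, tau_smul, tau_smul] at h9
  have h10 : tau (N + 1) (A t2) (0 : ℝ[X] →ₗ[ℝ] ℝ) 1 (N + 1 : ℕ) = 0 := by
    unfold tau
    simp
  rw [h10] at h9
  have h11 := hnn1 1 m1
  simp only at h11
  have h12 := mul_pos hd1pos hp2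
  have h13 := mul_nonneg (neg_nonneg.2 hd2') h11
  linarith

end

end Pool.Agent.H40.Atiyah
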