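import Pool.Agent.H40.Atiyah.Arr

/-!
# Forms with given real roots
-/

set_option autoImplicit false

namespace Pool.Agent.H40.Atiyah

open Finset Polynomial

/-- the linear form vanishing at the angle `t` -/
noncomputable def S (t : ℝ) : ℝ[X] := C (Real.cos (t / 2)) * X - C (Real.sin (t / 2))

/-- the orthogonal linear form -/
noncomputable def K (t : ℝ) : ℝ[X] := C (Real.sin (t / 2)) * X + C (Real.cos (t / 2))

theorem S_eq (t x : ℝ) :
    S t = C (Real.cos ((t - x) / 2)) * S x - C (Real.sin ((t - x) / 2)) * K x := by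
  unfold S K
  have h1 : Real.cos (t / 2) = Real.cos ((t - x) / 2) * Real.cos (x / 2) -
      Real.sin ((t - x) / 2) * Real.sin (x / 2) := by
    rw [← Real.cos_add]; congr 1; ring
  have h2 : Real.sin (t / 2) = Real.sin ((t - x) / 2) * Real.cos (x / 2) +
      Real.cos ((t - x) / 2) * Real.sin (x / 2) := by
    rw [← Real.sin_add]; congr 1; ring
  rw [h1, h2]
  simp only [C_add, C_sub, C_mul]
  ring

theorem S_pi (t : ℝ) : S (t + Real.pi) = -K t := by
  unfold S K
  have h : (t + Real.pi) / 2 = t / 2 + Real.pi / 2 := by ring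
  rw [h, Real.cos_add_pi_div_two, Real.sin_add_pi_div_two]
  simp only [C_neg]
  ring

theorem S_two_pi (t : ℝ) : S (t + 2 * Real.pi) = -S t := by
  unfold S
  have h : (t + 2 * Real.pi) / 2 = t / 2 + Real.pi := by ring
  rw [h, Real.cos_add_pi, Real.sin_add_pi]
  simp only [C_neg]
  ring

theorem K_two_pi (t : ℝ) : K (t + 2 * Real.pi) = -K t := by
  unfold K
  have h : (t + 2 * Real.pi) / 2 = t / 2 + Real.pi := by ring
  rw [h, Real.cos_add_pi, Real.sin_add_pi]
  simp only [C_neg]
  ring

theorem X_eq (w : ℝ) : (X : ℝ[X]) = C (Real.sin (w / 2)) * K w + C (Real.cos (w / 2)) * S w := by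
  unfold S K
  have h : (C (Real.sin (w / 2)) * C (Real.sin (w / 2)) +
      C (Real.cos (w / 2)) * C (Real.cos (w / 2)) : ℝ[X]) = 1 := by
    rw [← C_mul, ← C_mul, ← C_add, ← C_1]
    congr 1
    nlinarith [Real.sin_sq_add_cos_sq (w / 2)]
  linear_combination (-(X : ℝ[X])) * h

theorem one_eq (w : ℝ) : (1 : ℝ[X]) = C (Real.cos (w / 2)) * K w - C (Real.sin (w / 2)) * S w := by
  unfold S K
  have h : (C (Real.sin (w / 2)) * C (Real.sin (w / 2)) +
      C (Real.cos (w / 2)) * C (Real.cos (w / 2)) : ℝ[X]) = 1 := by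
    rw [← C_mul, ← C_mul, ← C_add, ← C_1]
    congr 1
    nlinarith [Real.sin_sq_add_cos_sq (w / 2)]
  linear_combination (-1) * h

theorem S_deg (t : ℝ) : (S t).degree ≤ 1 := by
  unfold S
  exact (degree_sub_le _ _).trans (max_le (degree_C_mul_X_le _)
    (degree_C_le.trans (by norm_num)))

theorem K_deg (t : ℝ) : (K t).degree ≤ 1 := by
  unfold K
  exact (degree_add_le _ _).trans (max_le (degree_C_mul_X_le _)
    (degree_C_le.trans (by norm_num)))

theorem gC (g : ℝ[X] →ₗ[ℝ] ℝ) (a : ℝ) (p : ℝ[X]) : g (C a * p) = a * g p := by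
  rw [← smul_eq_C_mul, map_smul, smul_eq_mul]

theorem le_of_mem {f : ℝ[X]} {j : ℕ} (h : f ∈ degreeLT ℝ (j + 1)) : f.degree ≤ (j : ℕ) := by
  rw [mem_degreeLT, degree_lt_iff_coeff_zero] at h
  rw [degree_le_iff_coeff_zero]
  intro m hm
  exact h m (by exact_mod_cast hm)

/-- product of the linear forms over a finite set -/
noncomputable def P (x : ℤ → ℝ) (L : Finset ℤ) : ℝ[X] := ∏ l ∈ L, S (x l)

theorem P_deg (x : ℤ → ℝ) (L : Finset ℤ) : (P x L).degree ≤ (L.card : ℕ) := by
  unfold P
  refine (degree_prod_le _ _).trans ?_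
  refine (Finset.sum_le_card_nsmul _ _ (1 : WithBot ℕ) fun l _ => S_deg (x l)).trans ?_
  simp

theorem mul_lt {f g : ℝ[X]} {a b N : ℕ} (hf : f.degree ≤ a) (hg : g.degree ≤ b) (h : a + b < N) :
    f * g ∈ degreeLT ℝ N := by
  rw [mem_degreeLT]
  refine (degree_mul_le _ _).trans_lt ?_
  refine (add_le_add hf hg).trans_lt ?_
  exact_mod_cast h

theorem K_pow_deg (w : ℝ) (k : ℕ) : (K w ^ k).degree ≤ (k : ℕ) := by
  refine (degree_pow_le _ _).trans ?_
  refine (nsmul_le_nsmul_right (K_deg w) k).trans ?_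
  simp

theorem P_mem (x : ℤ → ℝ) (L : Finset ℤ) {N : ℕ} (h : L.card < N) : P x L ∈ degreeLT ℝ N := by
  rw [mem_degreeLT]
  exact (P_deg x L).trans_lt (by exact_mod_cast h)

theorem P_erase (x : ℤ → ℝ) {L : Finset ℤ} {l : ℤ} (h : l ∈ L) :
    S (x l) * P x (L.erase l) = P x L := by
  unfold P
  exact Finset.mul_prod_erase L (fun l => S (x l)) h

/-- replacing a root -/
theorem g_erase (g : ℝ[X] →ₗ[ℝ] ℝ) (x : ℤ → ℝ) {L : Finset ℤ} {l : ℤ} (h : l ∈ L)
    (hg : g (P x L) = 0) (w : ℝ) :
    g (S w * P x (L.erase l)) =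
      Real.sin ((x l - w) / 2) * g (P x (L.erase l) * K (x l)) := by
  have h1 : S w * P x (L.erase l) = C (Real.cos ((w - x l) / 2)) * P x L -
      C (Real.sin ((w - x l) / 2)) * (P x (L.erase l) * K (x l)) := by
    rw [← P_erase x h, S_eq w (x l)]
    ring
  rw [h1, map_sub, gC, gC, hg]
  have h2 : Real.sin ((w - x l) / 2) = -Real.sin ((x l - w) / 2) := by
    rw [← Real.sin_neg]; congr 1; ring
  rw [h2]
  simp

/-! ### Functionals killing the multiples of a linear form -/

theorem ev_prod (g : ℝ[X] →ₗ[ℝ] ℝ) (w : ℝ) (N : ℕ) (hg : ∀ f ∈ degreeLT ℝ N, g (S w * f) = 0)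
    (x : ℤ → ℝ) (L : Finset ℤ) (hL : L.card ≤ N) :
    g (P x L * K w ^ (N - L.card)) = (∏ l ∈ L, -Real.sin ((x l - w) / 2)) * g (K w ^ N) := by
  induction L using Finset.induction_on with
  | empty => simp [P]
  | insert a L ha ih =>
    rw [Finset.card_insert_of_notMem ha] at hL ⊢
    have h1 := ih (by omega)
    have h2 : P x (insert a L) * K w ^ (N - (L.card + 1)) =
        C (Real.cos ((x a - w) / 2)) * (S w * (P x L * K w ^ (N - (L.card + 1)))) -
        C (Real.sin ((x a - w) / 2)) * (P x L * K w ^ (N - L.card)) := by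
      have h3 : P x (insert a L) = S (x a) * P x L := by
        unfold P
        rw [Finset.prod_insert ha]
      have h4 : N - L.card = (N - (L.card + 1)) + 1 := by omega
      rw [h3, h4, pow_succ, S_eq (x a) w]
      ring
    rw [h2, map_sub, gC, gC, h1,
      hg _ (mul_lt (P_deg x L) (K_pow_deg w _) (by omega)), Finset.prod_insert ha]
    simp
    ring

theorem ev_zero (g : ℝ[X] →ₗ[ℝ] ℝ) (w : ℝ) (N : ℕ) (hg : ∀ f ∈ degreeLT ℝ N, g (S w * f) = 0)
    (h0 : g (K w ^ N) = 0) : ∀ f ∈ degreeLT ℝ (N + 1), g f = 0 := by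
  have key : ∀ j : ℕ, j ≤ N → ∀ f ∈ degreeLT ℝ (j + 1), g (f * K w ^ (N - j)) = 0 := by
    intro j
    induction j with
    | zero =>
      intro _ f hf
      have h1 : f = C (f.coeff 0) := by
        apply eq_C_of_degree_le_zero
        simpa using le_of_mem hf
      rw [h1, gC, Nat.sub_zero, h0, mul_zero]
    | succ j ih =>
      intro hj f hf
      have hf1 : divX f ∈ degreeLT ℝ (j + 1) := by
        rw [mem_degreeLT, degree_lt_iff_coeff_zero] at hf ⊢
        intro m hm
        rw [coeff_divX]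
        exact hf _ (by omega)
      have hf0 : (C (f.coeff 0) : ℝ[X]) ∈ degreeLT ℝ (j + 1) := by
        rw [mem_degreeLT]
        exact degree_C_le.trans_lt (by exact_mod_cast Nat.succ_pos j)
      have i1 := ih (by omega) _ hf1
      have i0 := ih (by omega) _ hf0
      have h4 : N - j = (N - (j + 1)) + 1 := by omega
      have e : f * K w ^ (N - (j + 1)) =
          C (Real.sin (w / 2)) * (divX f * K w ^ (N - j)) +
          C (Real.cos (w / 2)) * (S w * (divX f * K w ^ (N - (j + 1)))) +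
          (C (Real.cos (w / 2)) * (C (f.coeff 0) * K w ^ (N - j)) -
          C (Real.sin (w / 2)) * (S w * (C (f.coeff 0) * K w ^ (N - (j + 1))))) := by
        have e1 := divX_mul_X_add f
        have e2 := X_eq w
        have e3 := one_eq w
        rw [h4, pow_succ]
        calc f * K w ^ (N - (j + 1)) = (divX f * X + C (f.coeff 0) * 1) * K w ^ (N - (j + 1)) := by
              rw [mul_one, e1]
          _ = _ := by
              rw [e2, e3]
              ring
      have hd1 : (divX f).degree ≤ (j : ℕ) := le_of_mem hf1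
      rw [e, map_add, map_add, map_sub, gC, gC, gC (a := Real.cos (w / 2)),
        gC (a := Real.sin (w / 2)), i1, i0,
        hg _ (mul_lt hd1 (K_pow_deg w _) (by omega)),
        hg _ (mul_lt (a := 0) (by exact_mod_cast degree_C_le) (K_pow_deg w _) (by omega))]
      simp
  intro f hf
  have := key N (le_refl _) f hf
  simpa using this

end Pool.Agent.H40.Atiyah
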