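import Pool.Agent.H40.Atiyah.Key
import Pool.Agent.H40.Atiyah.Base
import Pool.Agent.H40.Atiyah.Cont

/-!
# The homotopy to the ideal polygon
-/

set_option autoImplicit false

namespace Pool.Agent.H40.Atiyah

open Finset Polynomial

section

variable {N : ℕ} {u : ℤ → ℤ → ℝ}

/-- all functionals killing the rows `1, …, N` have slopes of one strict sign -/
def Sgn (N : ℕ) (u : ℤ → ℤ → ℝ) : Prop := ∀ g : ℝ[X] →ₗ[ℝ] ℝ,
  (∀ q ∈ Ioo (0 : ℤ) (N + 1 : ℕ), g (P (u q) (Ioo q (q + (N + 1 : ℕ)))) = 0) →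
  (¬ ∀ f ∈ degreeLT ℝ (N + 1), g f = 0) →
  (∀ q ∈ Ioo (0 : ℤ) (N + 1 : ℕ), 0 < tau (N + 1) u g q (N + 1 : ℕ)) ∨
  (∀ q ∈ Ioo (0 : ℤ) (N + 1 : ℕ), tau (N + 1) u g q (N + 1 : ℕ) < 0)

theorem tau_smul (n : ℕ) (u : ℤ → ℤ → ℝ) (g : ℝ[X] →ₗ[ℝ] ℝ) (c : ℝ) (i l : ℤ) :
    tau n u (c • g) i l = c * tau n u g i l := by
  unfold tau
  rw [LinearMap.smul_apply, smul_eq_mul]
  ring

theorem tau_sub (n : ℕ) (u : ℤ → ℤ → ℝ) (g g' : ℝ[X] →ₗ[ℝ] ℝ) (i l : ℤ) :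
    tau n u (g - g') i l = tau n u g i l - tau n u g' i l := by
  unfold tau
  rw [LinearMap.sub_apply]
  ring

theorem tau_neg (n : ℕ) (u : ℤ → ℤ → ℝ) (g : ℝ[X] →ₗ[ℝ] ℝ) (i l : ℤ) :
    tau n u (-g) i l = -tau n u g i l := by
  unfold tau
  rw [LinearMap.neg_apply]
  ring

/-- the polynomial of a slope -/
theorem slope_mem (x : ℤ → ℝ) (L : Finset ℤ) (y : ℝ) {n : ℕ} (h : L.card + 1 < n) :
    P x L * K y ∈ degreeLT ℝ n :=
  mul_lt (a := L.card) (b := 1) (P_deg x L) (by exact_mod_cast K_deg y) h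

theorem tau_congr {n : ℕ} (u : ℤ → ℤ → ℝ) {g g' : ℝ[X] →ₗ[ℝ] ℝ}
    (h : ∀ f ∈ degreeLT ℝ n, g f = g' f) {i l : ℤ} (hl : l ∈ Ioo i (i + (n : ℤ))) :
    tau n u g i l = tau n u g' i l := by
  unfold tau
  rw [h]
  apply slope_mem
  rw [Finset.card_erase_of_mem hl, Int.card_Ioo]
  rw [Finset.mem_Ioo] at hl
  omega

/-- two functionals -/
theorem line (hN : 2 ≤ N) (hPP : PP N) (H : KArr (N + 1) u) (g a : ℝ[X] →ₗ[ℝ] ℝ)
    (hg : ∀ q ∈ Ioo (0 : ℤ) (N + 1 : ℕ), g (P (u q) (Ioo q (q + (N + 1 : ℕ)))) = 0)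
    (hg0 : ¬ ∀ f ∈ degreeLT ℝ (N + 1), g f = 0)
    (ha : ∀ q ∈ Ioo (0 : ℤ) (N + 1 : ℕ), a (P (u q) (Ioo q (q + (N + 1 : ℕ)))) = 0)
    (ha0 : ¬ ∀ f ∈ degreeLT ℝ (N + 1), a f = 0)
    (hT : ∀ q ∈ Ioo (0 : ℤ) (N + 1 : ℕ), 0 ≤ tau (N + 1) u g q (N + 1 : ℕ))
    (h1 : ∃ q ∈ Ioo (0 : ℤ) (N + 1 : ℕ), tau (N + 1) u a q (N + 1 : ℕ) ≤ 0)
    (h2 : ∃ q ∈ Ioo (0 : ℤ) (N + 1 : ℕ), 0 ≤ tau (N + 1) u a q (N + 1 : ℕ)) : False := by
  have hmem : ∀ q ∈ Ioo (0 : ℤ) (N + 1 : ℕ),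
      ((N + 1 : ℕ) : ℤ) ∈ Ioo q (q + ((N + 1 : ℕ) : ℤ)) := by
    intro q hq
    rw [Finset.mem_Ioo] at hq ⊢
    omega
  have hpos : ∀ q ∈ Ioo (0 : ℤ) (N + 1 : ℕ), 0 < tau (N + 1) u g q (N + 1 : ℕ) := fun q hq =>
    key hN hPP H g hg hg0 hT q hq _ (hmem q hq)
  obtain ⟨q1, hq1, h1⟩ := h1
  obtain ⟨q2, hq2, h2⟩ := h2
  obtain ⟨m, hm, hmax⟩ := Finset.exists_max_image (Ioo (0 : ℤ) (N + 1 : ℕ))
    (fun q => tau (N + 1) u a q (N + 1 : ℕ) / tau (N + 1) u g q (N + 1 : ℕ)) ⟨q1, hq1⟩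
  set r := tau (N + 1) u a m (N + 1 : ℕ) / tau (N + 1) u g m (N + 1 : ℕ) with hr
  have hr0 : 0 ≤ r := (div_nonneg h2 (hpos q2 hq2).le).trans (hmax q2 hq2)
  have hb : ∀ q ∈ Ioo (0 : ℤ) (N + 1 : ℕ), 0 ≤ tau (N + 1) u (r • g - a) q (N + 1 : ℕ) := by
    intro q hq
    rw [tau_sub, tau_smul]
    have h3 := hmax q hq
    rw [div_le_iff₀ (hpos q hq)] at h3
    linarith
  have hbm : tau (N + 1) u (r • g - a) m (N + 1 : ℕ) = 0 := by
    rw [tau_sub, tau_smul, hr, div_mul_cancel₀ _ (hpos m hm).ne', sub_self]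
  by_cases hz : ∀ f ∈ degreeLT ℝ (N + 1), (r • g - a) f = 0
  · have h3 : ∀ f ∈ degreeLT ℝ (N + 1), a f = (r • g) f := by
      intro f hf
      have := hz f hf
      rw [LinearMap.sub_apply] at this
      linarith
    have h4 := tau_congr u h3 (hmem q1 hq1)
    rw [tau_smul] at h4
    rw [h4] at h1
    have h5 : r ≤ 0 := by
      by_contra hc
      push Not at hc
      have := mul_pos hc (hpos q1 hq1)
      linarith
    have h6 : r = 0 := le_antisymm h5 hr0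
    apply ha0
    intro f hf
    rw [h3 f hf, h6, zero_smul, LinearMap.zero_apply]
  · have h3 := key hN hPP H (r • g - a) (by
      intro q hq
      rw [LinearMap.sub_apply, LinearMap.smul_apply, hg q hq, ha q hq, smul_zero, sub_zero]) hz hb
      m hm _ (hmem m hm)
    rw [hbm] at h3
    exact lt_irrefl _ h3

theorem ideal_sgn (hN : 1 ≤ N) {v : ℤ → ℝ} (hv : StrictMono v)
    (hp : ∀ l : ℤ, v (l + (N + 1 : ℕ)) = v l + 2 * Real.pi) : Sgn N (fun _ l => v l) := by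
  intro g hg hne
  have hz := ideal_ev hv hp g hg
  have hK : g (K (v (N + 1 : ℕ)) ^ N) ≠ 0 := fun h => hne (ev_zero g _ N hz h)
  rcases lt_or_gt_of_ne hK with h | h
  · left
    intro q hq
    obtain ⟨c, hc, h1⟩ := ideal_tau hN hv hp g hz hq
    rw [h1]
    have := mul_neg_of_pos_of_neg hc h
    linarith
  · right
    intro q hq
    obtain ⟨c, hc, h1⟩ := ideal_tau hN hv hp g hz hq
    rw [h1]
    have := mul_pos hc h
    linarith

/-- the continuity argument -/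
theorem homotopy (hN : 2 ≤ N) (hPP : PP N) (A : ℝ → ℤ → ℤ → ℝ)
    (hA : ∀ i l, Continuous fun t => A t i l) (h0 : Sgn N (A 0))
    (hK : ∀ t, 0 < t → t ≤ 1 → KArr (N + 1) (A t)) : Sgn N (A 1) := by
  have hckill : ∀ q : ℤ, Continuous fun p : ℝ × (Fin (N + 1) → ℝ) =>
      fn p.2 (P (A p.1 q) (Ioo q (q + (N + 1 : ℕ)))) := fun q =>
    cont_fn (CC_P (fun l => hA q l) _)
  have hctau : ∀ q : ℤ, Continuous fun p : ℝ × (Fin (N + 1) → ℝ) =>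
      tau (N + 1) (A p.1) (fn p.2) q (N + 1 : ℕ) := fun q => cont_tau hA q _
  have hkillcl : IsClosed {p : ℝ × (Fin (N + 1) → ℝ) | ∀ q ∈ Ioo (0 : ℤ) (N + 1 : ℕ),
      fn p.2 (P (A p.1 q) (Ioo q (q + (N + 1 : ℕ)))) = 0} := by
    simp only [Set.ofPred_forall]
    exact isClosed_biInter fun q _ => isClosed_eq (hckill q) continuous_const
  have hcomp : IsCompact (Set.Icc (0 : ℝ) 1 ×ˢ Metric.sphere (0 : Fin (N + 1) → ℝ) 1) :=
    isCompact_Icc.prod (isCompact_sphere _ _)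
  set T : Set ℝ := Prod.fst '' ((Set.Icc (0 : ℝ) 1 ×ˢ Metric.sphere (0 : Fin (N + 1) → ℝ) 1) ∩
    ({p | ∀ q ∈ Ioo (0 : ℤ) (N + 1 : ℕ), fn p.2 (P (A p.1 q) (Ioo q (q + (N + 1 : ℕ)))) = 0} ∩
    {p | ∀ q ∈ Ioo (0 : ℤ) (N + 1 : ℕ), 0 ≤ tau (N + 1) (A p.1) (fn p.2) q (N + 1 : ℕ)})) with hT
  set B : Set ℝ := Prod.fst '' ((Set.Icc (0 : ℝ) 1 ×ˢ Metric.sphere (0 : Fin (N + 1) → ℝ) 1) ∩
    ({p | ∀ q ∈ Ioo (0 : ℤ) (N + 1 : ℕ), fn p.2 (P (A p.1 q) (Ioo q (q + (N + 1 : ℕ)))) = 0} ∩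
    ({p | ∃ q ∈ Ioo (0 : ℤ) (N + 1 : ℕ), tau (N + 1) (A p.1) (fn p.2) q (N + 1 : ℕ) ≤ 0} ∩
    {p | ∃ q ∈ Ioo (0 : ℤ) (N + 1 : ℕ), 0 ≤ tau (N + 1) (A p.1) (fn p.2) q (N + 1 : ℕ)}))) with hB
  have hTc : IsClosed T := by
    refine IsCompact.isClosed ((hcomp.inter_right (hkillcl.inter ?_)).image continuous_fst)
    simp only [Set.ofPred_forall]
    exact isClosed_biInter fun q _ => isClosed_le continuous_const (hctau q)
  have hBc : IsClosed B := by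
    refine IsCompact.isClosed ((hcomp.inter_right (hkillcl.inter (IsClosed.inter ?_ ?_))).image
      continuous_fst)
    · have : {p : ℝ × (Fin (N + 1) → ℝ) | ∃ q ∈ Ioo (0 : ℤ) (N + 1 : ℕ),
          tau (N + 1) (A p.1) (fn p.2) q (N + 1 : ℕ) ≤ 0} =
          ⋃ q ∈ (Ioo (0 : ℤ) (N + 1 : ℕ) : Finset ℤ), {p | tau (N + 1) (A p.1) (fn p.2) q (N + 1 : ℕ) ≤ 0} := by
        ext p; simp
      rw [this]
      exact Set.Finite.isClosed_biUnion (Finset.finite_toSet _) fun q _ =>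
        isClosed_le (hctau q) continuous_const
    · have : {p : ℝ × (Fin (N + 1) → ℝ) | ∃ q ∈ Ioo (0 : ℤ) (N + 1 : ℕ),
          0 ≤ tau (N + 1) (A p.1) (fn p.2) q (N + 1 : ℕ)} =
          ⋃ q ∈ (Ioo (0 : ℤ) (N + 1 : ℕ) : Finset ℤ), {p | 0 ≤ tau (N + 1) (A p.1) (fn p.2) q (N + 1 : ℕ)} := by
        ext p; simp
      rw [this]
      exact Set.Finite.isClosed_biUnion (Finset.finite_toSet _) fun q _ =>
        isClosed_le continuous_const (hctau q)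
  have hneg : ∀ (a : Fin (N + 1) → ℝ) (f : ℝ[X]), fn (-a) f = -fn a f := by
    intro a f
    simp only [fn_apply, Pi.neg_apply, neg_mul, Finset.sum_neg_distrib]
  have htneg : ∀ (t : ℝ) (a : Fin (N + 1) → ℝ) (q l : ℤ),
      tau (N + 1) (A t) (fn (-a)) q l = -tau (N + 1) (A t) (fn a) q l := by
    intro t a q l
    unfold tau
    rw [hneg]; ring
  have hcov : Set.Icc (0 : ℝ) 1 ⊆ T ∪ B := by
    intro t ht
    obtain ⟨a, ha, hk⟩ := exists_kill N (fun q => P (A t q) (Ioo q (q + (N + 1 : ℕ))))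
    have has : a ∈ Metric.sphere (0 : Fin (N + 1) → ℝ) 1 := by simpa using ha
    by_cases h1 : ∀ q ∈ Ioo (0 : ℤ) (N + 1 : ℕ), 0 ≤ tau (N + 1) (A t) (fn a) q (N + 1 : ℕ)
    · left
      exact ⟨(t, a), ⟨⟨ht, has⟩, hk, h1⟩, rfl⟩
    · by_cases h2 : ∀ q ∈ Ioo (0 : ℤ) (N + 1 : ℕ), tau (N + 1) (A t) (fn a) q (N + 1 : ℕ) ≤ 0
      · left
        refine ⟨(t, -a), ⟨⟨ht, by simpa using ha⟩, ?_, ?_⟩, rfl⟩
        · intro q hq
          have := hk q hq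
          simp only [hneg]
          rw [this, neg_zero]
        · intro q hq
          have := h2 q hq
          simp only [htneg]
          linarith
      · right
        push Not at h1 h2
        obtain ⟨q1, hq1, h1⟩ := h1
        obtain ⟨q2, hq2, h2⟩ := h2
        exact ⟨(t, a), ⟨⟨ht, has⟩, hk, ⟨q1, hq1, h1.le⟩, ⟨q2, hq2, h2.le⟩⟩, rfl⟩
  have hne0 : ∀ a : Fin (N + 1) → ℝ, a ∈ Metric.sphere (0 : Fin (N + 1) → ℝ) 1 → a ≠ 0 := by
    rintro a ha rfl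
    simp at ha
  have hT0 : (Set.Icc (0 : ℝ) 1 ∩ T).Nonempty := by
    refine ⟨0, ⟨le_refl _, zero_le_one⟩, ?_⟩
    rcases hcov (⟨le_refl _, zero_le_one⟩ : (0 : ℝ) ∈ Set.Icc (0 : ℝ) 1) with h | h
    · exact h
    · exfalso
      obtain ⟨⟨t, a⟩, ⟨⟨_, has⟩, hk, ⟨q1, hq1, h1⟩, ⟨q2, hq2, h2⟩⟩, rfl⟩ := h
      rcases h0 (fn a) hk (fn_ne (hne0 a has)) with h3 | h3
      · exact absurd (h3 q1 hq1) (not_lt.2 h1)
      · exact absurd (h3 q2 hq2) (not_lt.2 h2)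
  intro g hg hne
  by_contra hcon
  push Not at hcon
  obtain ⟨⟨q1, hq1, h1⟩, ⟨q2, hq2, h2⟩⟩ := hcon
  have hB1 : (Set.Icc (0 : ℝ) 1 ∩ B).Nonempty := by
    refine ⟨1, ⟨zero_le_one, le_refl _⟩, ?_⟩
    set b : Fin (N + 1) → ℝ := fun k => g (X ^ (k : ℕ)) with hb
    have hfb : ∀ f ∈ degreeLT ℝ (N + 1), fn b f = g f := fn_eq g
    have hb0 : b ≠ 0 := by
      intro h
      apply hne
      intro f hf
      rw [← hfb f hf, h]
      simp [fn_apply]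
    have hbn : ‖b‖ ≠ 0 := norm_ne_zero_iff.2 hb0
    have hbp : 0 < ‖b‖⁻¹ := inv_pos.2 (lt_of_le_of_ne (norm_nonneg b) hbn.symm)
    have hsm : ∀ f : ℝ[X], fn (‖b‖⁻¹ • b) f = ‖b‖⁻¹ * fn b f := by
      intro f
      simp only [fn_apply, Pi.smul_apply, smul_eq_mul, Finset.mul_sum, mul_assoc]
    have hmem : ∀ q ∈ Ioo (0 : ℤ) (N + 1 : ℕ),
        ((N + 1 : ℕ) : ℤ) ∈ Ioo q (q + ((N + 1 : ℕ) : ℤ)) := by
      intro q hq
      rw [Finset.mem_Ioo] at hq ⊢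
      omega
    have htsm : ∀ q ∈ Ioo (0 : ℤ) (N + 1 : ℕ),
        tau (N + 1) (A 1) (fn (‖b‖⁻¹ • b)) q (N + 1 : ℕ) =
          ‖b‖⁻¹ * tau (N + 1) (A 1) g q (N + 1 : ℕ) := by
      intro q hq
      rw [← tau_congr (A 1) hfb (hmem q hq)]
      unfold tau
      rw [hsm]; ring
    refine ⟨(1, ‖b‖⁻¹ • b), ⟨⟨⟨zero_le_one, le_refl _⟩, ?_⟩, ?_, ⟨q1, hq1, ?_⟩, ⟨q2, hq2, ?_⟩⟩, rfl⟩
    · simp only [mem_sphere_iff_norm, sub_zero]
      rw [norm_smul, norm_inv, norm_norm, inv_mul_cancel₀ hbn]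
    · intro q hq
      simp only [hsm]
      rw [hfb _ (P_mem _ _ (by rw [Int.card_Ioo]; omega)), hg q hq, mul_zero]
    · simp only [htsm q1 hq1]
      exact mul_nonpos_of_nonneg_of_nonpos hbp.le h1
    · simp only [htsm q2 hq2]
      exact mul_nonneg hbp.le h2
  obtain ⟨t, ht, htT, htB⟩ := isPreconnected_closed_iff.1 isPreconnected_Icc T B hTc hBc hcov hT0 hB1
  obtain ⟨⟨t1, a1⟩, ⟨⟨_, has1⟩, hk1, hnn⟩, rfl⟩ := htT
  obtain ⟨⟨t2, a2⟩, ⟨⟨_, has2⟩, hk2, ⟨q3, hq3, h3⟩, ⟨q4, hq4, h4⟩⟩, h5⟩ := htB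
  simp only at h5
  subst h5
  rcases eq_or_lt_of_le ht.1 with h6 | h6
  · have h7 : (t2 : ℝ) = 0 := h6.symm
    subst h7
    rcases h0 (fn a2) hk2 (fn_ne (hne0 a2 has2)) with h8 | h8
    · exact absurd (h8 q3 hq3) (not_lt.2 h3)
    · exact absurd (h8 q4 hq4) (not_lt.2 h4)
  · exact line hN hPP (hK t2 h6 ht.2) (fn a1) (fn a2) hk1 (fn_ne (hne0 a1 has1)) hk2
      (fn_ne (hne0 a2 has2)) hnn ⟨q3, hq3, h3⟩ ⟨q4, hq4, h4⟩

/-- the path to the ideal polygon -/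
noncomputable def path (N : ℕ) (u : ℤ → ℤ → ℝ) (t : ℝ) (i l : ℤ) : ℝ :=
  (1 - t) * (l * (2 * Real.pi / (N + 1))) + t * u i l

theorem path_karr (H : KArr (N + 1) u) {t : ℝ} (h0 : 0 < t) (h1 : t ≤ 1) :
    KArr (N + 1) (path N u t) := by
  have hc : (0 : ℝ) < 2 * Real.pi / (N + 1) := by positivity
  have hN : ((N : ℝ) + 1) ≠ 0 := by positivity
  constructor
  · intro i j
    unfold path
    rw [H.per]
    push_cast
    field_simp
    ring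
  · intro i j h2 h3
    unfold path
    have h4 := H.row i j h2 h3
    push_cast
    nlinarith [mul_pos h0 (sub_pos.2 h4), mul_nonneg (sub_nonneg.2 h1) hc.le]
  · intro i j h2 h3
    unfold path
    have h4 := H.col i j h2 h3
    nlinarith [mul_pos h0 (sub_pos.2 h4)]
  · intro i
    unfold path
    have h4 := H.diag i
    push_cast
    nlinarith [mul_pos h0 (sub_pos.2 h4), mul_nonneg (sub_nonneg.2 h1) hc.le]

theorem path_cont (i l : ℤ) : Continuous fun t => path N u t i l := by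
  unfold path
  fun_prop

theorem path_one : path N u 1 = u := by
  funext i l
  unfold path
  ring

theorem path_zero : path N u 0 = fun (_ l : ℤ) => (l : ℝ) * (2 * Real.pi / (N + 1)) := by
  funext i l
  unfold path
  ring

theorem vmono : StrictMono (fun l : ℤ => (l : ℝ) * (2 * Real.pi / (N + 1))) := by
  intro a b h
  have hc : (0 : ℝ) < 2 * Real.pi / (N + 1) := by positivity
  have : (a : ℝ) < b := by exact_mod_cast h
  exact mul_lt_mul_of_pos_right this hc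

theorem vper (l : ℤ) : (fun l : ℤ => (l : ℝ) * (2 * Real.pi / (N + 1))) (l + (N + 1 : ℕ)) =
    (fun l : ℤ => (l : ℝ) * (2 * Real.pi / (N + 1))) l + 2 * Real.pi := by
  have hN : ((N : ℝ) + 1) ≠ 0 := by positivity
  simp only
  push_cast
  field_simp

theorem sgn_all (hN : 2 ≤ N) (hPP : PP N) (H : KArr (N + 1) u) : Sgn N u := by
  have h := homotopy hN hPP (path N u) path_cont
    (by rw [path_zero]; exact ideal_sgn (by omega) vmono vper)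
    (fun t h0 h1 => path_karr H h0 h1)
  rw [path_one] at h
  exact h

/-- all slopes have the same strict sign -/
theorem sgn_full (hN : 2 ≤ N) (hPP : PP N) (H : KArr (N + 1) u) (g : ℝ[X] →ₗ[ℝ] ℝ)
    (hg : ∀ q ∈ Ioo (0 : ℤ) (N + 1 : ℕ), g (P (u q) (Ioo q (q + (N + 1 : ℕ)))) = 0)
    (hne : ¬ ∀ f ∈ degreeLT ℝ (N + 1), g f = 0) :
    (∀ q ∈ Ioo (0 : ℤ) (N + 1 : ℕ), ∀ l ∈ Ioo q (q + ((N + 1 : ℕ) : ℤ)),
      0 < tau (N + 1) u g q l) ∨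
    (∀ q ∈ Ioo (0 : ℤ) (N + 1 : ℕ), ∀ l ∈ Ioo q (q + ((N + 1 : ℕ) : ℤ)),
      tau (N + 1) u g q l < 0) := by
  rcases sgn_all hN hPP H g hg hne with h | h
  · left
    exact key hN hPP H g hg hne (fun q hq => (h q hq).le)
  · right
    intro q hq l hl
    have h1 := key hN hPP H (-g) (fun q hq => by rw [LinearMap.neg_apply, hg q hq, neg_zero])
      (fun hz => hne fun f hf => by
        have := hz f hf
        rw [LinearMap.neg_apply] at this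
        linarith)
      (fun q hq => by rw [tau_neg]; have := h q hq; linarith) q hq l hl
    rw [tau_neg] at h1
    linarith

end

end Pool.Agent.H40.Atiyah
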