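import Pool.Agent.H40.Atiyah.Slope

/-!
# The key lemma
-/

set_option autoImplicit false

namespace Pool.Agent.H40.Atiyah

open Finset Polynomial

section

variable {N : ℕ} {u : ℤ → ℤ → ℝ}

/-- no common root -/
theorem gw_ne (hN : 2 ≤ N) (H : KArr (N + 1) u) (g : ℝ[X] →ₗ[ℝ] ℝ)
    (hg : ∀ q ∈ Ioo (0 : ℤ) (N + 1 : ℕ), g (P (u q) (Ioo q (q + (N + 1 : ℕ)))) = 0)
    (hne : ¬ ∀ f ∈ degreeLT ℝ (N + 1), g f = 0) (w : ℝ) :
    ¬ ∀ f ∈ degreeLT ℝ N, g (S w * f) = 0 := by
  intro hz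
  have hK : g (K w ^ N) ≠ 0 := fun h => hne (ev_zero g w N hz h)
  have hroot : ∀ q ∈ Ioo (0 : ℤ) (N + 1 : ℕ), ∃ l ∈ Ioo q (q + (N + 1 : ℕ)),
      Real.sin ((u q l - w) / 2) = 0 := by
    intro q hq
    have hc : (Ioo q (q + ((N + 1 : ℕ) : ℤ))).card = N := by
      rw [Int.card_Ioo]; omega
    have h1 := ev_prod g w N hz (u q) (Ioo q (q + (N + 1 : ℕ))) hc.le
    rw [hc, Nat.sub_self, pow_zero, mul_one, hg q hq] at h1
    have h2 := (mul_eq_zero.1 h1.symm).resolve_right hK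
    obtain ⟨l, hl, h3⟩ := Finset.prod_eq_zero_iff.1 h2
    exact ⟨l, hl, neg_eq_zero.1 h3⟩
  have chain : ∀ k : ℕ, 1 ≤ k → k ≤ N → ∀ l : ℤ, (k : ℤ) < l → l < k + (N + 1 : ℕ) →
      Real.sin ((u k l - w) / 2) = 0 → l ≤ N + 2 - k := by
    intro k
    induction k with
    | zero => intro h; omega
    | succ k ih =>
      intro _ h2 l' h3 h4 h5
      rcases Nat.eq_zero_or_pos k with rfl | hk
      · push_cast at h4 ⊢; omega
      obtain ⟨l, hl, h6⟩ := hroot k (Finset.mem_Ioo.2 ⟨by omega, by push_cast; omega⟩)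
      rw [Finset.mem_Ioo] at hl
      have h7 := ih (by omega) (by omega) l hl.1 hl.2 h6
      by_contra hc
      push_cast at hc h3 h4 hl h5
      have hle : l ≤ l' := by omega
      have e1 := H.lt (by omega) (i := k) (j := l) (i' := k + 1) (j' := l') (by omega) hle hl.1
        (by push_cast; omega) h3 (by push_cast; omega) (Or.inl (by omega))
      have e2 := H.lt_add (by omega) (i := k) (j := l) (i' := k + 1) (j' := l') (by push_cast; omega)
        (by push_cast; omega) hl.1 (by push_cast; omega) h3 (by push_cast; omega)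
        (Or.inl (by push_cast; omega))
      obtain ⟨m1, hm1⟩ := Real.sin_eq_zero_iff.1 h6
      obtain ⟨m2, hm2⟩ := Real.sin_eq_zero_iff.1 h5
      have e3 : u (k + 1) l' - u k l = ((m2 - m1 : ℤ) : ℝ) * (2 * Real.pi) := by
        push_cast
        linear_combination 2 * hm1 - 2 * hm2
      have hpi := Real.pi_pos
      have e4 : (0 : ℝ) < ((m2 - m1 : ℤ) : ℝ) := by
        by_contra hcc
        push Not at hcc
        nlinarith
      have e5 : ((m2 - m1 : ℤ) : ℝ) < 1 := by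
        by_contra hcc
        push Not at hcc
        nlinarith
      have e6 : (0 : ℤ) < m2 - m1 := by exact_mod_cast e4
      have e7 : m2 - m1 < (1 : ℤ) := by exact_mod_cast e5
      omega
  obtain ⟨l, hl, h1⟩ := hroot N (Finset.mem_Ioo.2 ⟨by omega, by push_cast; omega⟩)
  rw [Finset.mem_Ioo] at hl
  have := chain N (by omega) (le_refl _) l hl.1 hl.2 h1
  omega

theorem sin_pos' {x : ℝ} (h1 : 0 < x) (h2 : x < 2 * Real.pi) : 0 < Real.sin (x / 2) :=
  Real.sin_pos_of_pos_of_lt_pi (by linarith) (by linarith)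

/-- a row before the missing column value -/
theorem row_lo (g : ℝ[X] →ₗ[ℝ] ℝ) {q l : ℤ}
    (hl : l ∈ Ioo q (q + ((N + 1 : ℕ) : ℤ)))
    (hg : g (P (u q) (Ioo q (q + (N + 1 : ℕ)))) = 0) (ht : 0 ≤ tau (N + 1) u g q l) {w : ℝ}
    (h1 : w < u q l) (h2 : u q l < w + 2 * Real.pi) :
    0 ≤ sg q * g (S w * P (u q) ((Ioo q (q + (N + 1 : ℕ))).erase l)) := by
  rw [g_erase g (u q) hl hg w]
  have := sin_pos' (x := u q l - w) (by linarith) (by linarith)
  have h3 := mul_nonneg this.le ht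
  unfold tau at h3
  linarith

/-- a row after the missing column value, one turn later -/
theorem row_hi (H : KArr (N + 1) u) (g : ℝ[X] →ₗ[ℝ] ℝ) {q l : ℤ}
    (hl : l ∈ Ioo q (q + ((N + 1 : ℕ) : ℤ)))
    (hg : g (P (u q) (Ioo q (q + (N + 1 : ℕ)))) = 0) (ht : 0 ≤ tau (N + 1) u g q l) {w : ℝ}
    (h1 : u q l < w) (h2 : w < u q l + 2 * Real.pi) :
    sg (q + (N + 1 : ℕ)) * g (S w * P (u (q + (N + 1 : ℕ)))
      ((Ioo (q + ((N + 1 : ℕ) : ℤ)) (q + (N + 1 : ℕ) + (N + 1 : ℕ))).erase (l + (N + 1 : ℕ)))) ≤ 0 := by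
  have hl' : l + ((N + 1 : ℕ) : ℤ) ∈ Ioo (q + ((N + 1 : ℕ) : ℤ)) (q + (N + 1 : ℕ) + (N + 1 : ℕ)) := by
    rw [Finset.mem_Ioo] at hl ⊢
    constructor <;> omega
  rw [g_erase g _ hl' (kill_add H g q hg) w, H.per]
  have := sin_pos' (x := u q l + 2 * Real.pi - w) (by linarith) (by linarith)
  have h3 := mul_nonneg this.le ht
  have h4 := tau_add H g q l hl
  unfold tau at h3 h4
  rw [H.per] at h4
  nlinarith [h3, h4]

theorem div_lo {a : ℤ} (h1 : 0 ≤ a) (h2 : a < N) : a / (N : ℤ) = 0 :=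
  Int.ediv_eq_zero_of_lt h1 h2

theorem div_hi {a : ℤ} (h1 : (N : ℤ) ≤ a) (h2 : a < 2 * N) (hN : 2 ≤ N) : a / (N : ℤ) = 1 := by
  rw [Int.ediv_eq_iff_of_pos (by omega)]
  constructor <;> omega

/-- the slopes away from the missing column -/
theorem keyA (hN : 2 ≤ N) (hPP : PP N) (H : KArr (N + 1) u) (g : ℝ[X] →ₗ[ℝ] ℝ)
    (hg : ∀ q ∈ Ioo (0 : ℤ) (N + 1 : ℕ), g (P (u q) (Ioo q (q + (N + 1 : ℕ)))) = 0)
    (hne : ¬ ∀ f ∈ degreeLT ℝ (N + 1), g f = 0)
    (ht : ∀ q ∈ Ioo (0 : ℤ) (N + 1 : ℕ), 0 ≤ tau (N + 1) u g q (N + 1 : ℕ)) :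
    ∀ i ∈ Ioo (0 : ℤ) (N + 1 : ℕ), ∀ l ∈ Ioo i (i + ((N + 1 : ℕ) : ℤ)), l ≠ (N + 1 : ℕ) →
      0 < tau (N + 1) u g i l := by
  intro i hi l hl hlN
  have hi' := Finset.mem_Ioo.1 hi
  have hl' := Finset.mem_Ioo.1 hl
  set w := u i (N + 1 : ℕ) with hw
  have hdiv : (i - 1) / (N : ℤ) = 0 := div_lo (by omega) (by push_cast at hi'; omega)
  have hφ : phi N (i - 1) = i := by
    unfold phi
    rw [hdiv]; ring
  have hz : ((N : ℤ) + 1) * ((i - 1) / (N : ℤ) + 1) = ((N + 1 : ℕ) : ℤ) := by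
    rw [hdiv]; push_cast; ring
  have hmem : ((N + 1 : ℕ) : ℤ) ∈ Ioo i (i + ((N + 1 : ℕ) : ℤ)) :=
    Finset.mem_Ioo.2 ⟨hi'.2, by omega⟩
  have key := transfer hN hPP (del_zero N (by omega)) H g w (gw_ne hN H g hg hne w) (i - 1)
    (by
      simp only [hφ, hz]
      rw [g_erase g (u i) hmem (hg i hi) w, ← hw, sub_self, zero_div, Real.sin_zero, zero_mul])
    (by
      intro b hb
      rw [Finset.mem_Ioo] at hb
      have hb1 : 0 ≤ b := by omega
      rcases lt_or_ge b (N : ℤ) with hbN | hbN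
      · have hd : b / (N : ℤ) = 0 := div_lo hb1 hbN
        have hφb : phi N b = b + 1 := by unfold phi; rw [hd]; ring
        have hzb : ((N : ℤ) + 1) * (b / (N : ℤ) + 1) = ((N + 1 : ℕ) : ℤ) := by
          rw [hd]; push_cast; ring
        simp only [hφb, hzb]
        have hq : b + 1 ∈ Ioo (0 : ℤ) (N + 1 : ℕ) :=
          Finset.mem_Ioo.2 ⟨by omega, by push_cast; omega⟩
        have hqm : ((N + 1 : ℕ) : ℤ) ∈ Ioo (b + 1) (b + 1 + ((N + 1 : ℕ) : ℤ)) :=
          Finset.mem_Ioo.2 ⟨by push_cast; omega, by omega⟩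
        have h1 := row_lo g hqm (hg _ hq) (ht _ hq) (w := w)
          (H.lt (by omega) (by omega) (le_refl _) hi'.2 (by omega) (by push_cast; omega) (by omega)
            (Or.inl (by omega)))
          (H.lt_add (by omega) (by push_cast; omega) (by push_cast; omega) hi'.2 (by omega)
            (by push_cast; omega) (by omega) (Or.inl (by push_cast at *; omega)))
        rw [sg_succ] at h1
        linarith
      · have hd : b / (N : ℤ) = 1 := div_hi hbN (by push_cast at *; omega) hN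
        have hφb : phi N b = (b + 1 - N) + (N + 1 : ℕ) := by unfold phi; rw [hd]; push_cast; ring
        have hzb : ((N : ℤ) + 1) * (b / (N : ℤ) + 1) = ((N + 1 : ℕ) : ℤ) + ((N + 1 : ℕ) : ℤ) := by
          rw [hd]; push_cast; ring
        simp only [hφb, hzb]
        have hq : b + 1 - N ∈ Ioo (0 : ℤ) (N + 1 : ℕ) :=
          Finset.mem_Ioo.2 ⟨by omega, by push_cast at *; omega⟩
        have hqm : ((N + 1 : ℕ) : ℤ) ∈ Ioo (b + 1 - N) (b + 1 - N + ((N + 1 : ℕ) : ℤ)) :=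
          Finset.mem_Ioo.2 ⟨by push_cast at *; omega, by omega⟩
        have h1 := row_hi H g hqm (hg _ hq) (ht _ hq) (w := w)
          (H.lt (by omega) (by push_cast at *; omega) (le_refl _) (by push_cast at *; omega)
            (by push_cast at *; omega) (by push_cast at *; omega) (by push_cast at *; omega)
            (Or.inl (by push_cast at *; omega)))
          (H.lt_add (by omega) (by push_cast at *; omega) (by push_cast at *; omega)
            (by push_cast at *; omega) (by push_cast at *; omega)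
            (by push_cast at *; omega) (by push_cast at *; omega)
            (Or.inl (by push_cast at *; omega)))
        have h2 : sg (b + 1 - N + ((N + 1 : ℕ) : ℤ)) = sg b := by
          rw [show b + 1 - N + ((N + 1 : ℕ) : ℤ) = b + 1 + 1 by push_cast; ring, sg_succ, sg_succ,
            neg_neg]
        rw [h2] at h1
        linarith)
  have h3 := key l (by rw [hφ]; exact hl) (by simp only [hz]; exact hlN)
  simp only [hφ, hz] at h3
  unfold tau
  rw [sg_pred] at h3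
  have h4 : S w * (P (u i) (((Ioo i (i + ((N + 1 : ℕ) : ℤ))).erase ((N + 1 : ℕ) : ℤ)).erase l) *
      K (u i l)) = P (u i) ((Ioo i (i + ((N + 1 : ℕ) : ℤ))).erase l) * K (u i l) := by
    rw [Finset.erase_right_comm, ← mul_assoc, hw,
      P_erase (u i) (Finset.mem_erase.2 ⟨fun h => hlN h.symm, hmem⟩)]
  rw [h4] at h3
  linarith

theorem not_dvd {a : ℤ} (h1 : 0 < a) (h2 : a < 2 * N) (h3 : a ≠ N) : ¬ (N : ℤ) ∣ a := by
  rintro ⟨c, rfl⟩
  have hN : (0 : ℤ) < N := by
    by_contra hc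
    have : (N : ℤ) = 0 := by omega
    rw [this] at h1
    omega
  have hc0 : 0 < c := by
    by_contra hc
    push Not at hc
    nlinarith
  have hc2 : c < 2 := by
    by_contra hc
    push Not at hc
    nlinarith
  have : c = 1 := by omega
  rw [this] at h3
  omega

/-- the slope at the missing column; here the missing row is `1` (and `N + 2`), and the deleted
vertex is `0` (and `N + 1`). -/
theorem keyB (hN : 2 ≤ N) (hPP : PP N) (H : KArr (N + 1) u) (g : ℝ[X] →ₗ[ℝ] ℝ)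
    (hg : ∀ q ∈ Ioo (1 : ℤ) (N + 2 : ℕ), g (P (u q) (Ioo q (q + (N + 1 : ℕ)))) = 0)
    (hgw : ∀ w, ¬ ∀ f ∈ degreeLT ℝ N, g (S w * f) = 0)
    (ht : ∀ q ∈ Ioo (1 : ℤ) (N + 1 : ℕ), 0 ≤ tau (N + 1) u g q (N + 1 : ℕ))
    (ht' : 0 ≤ tau (N + 1) u g (N + 1 : ℕ) (N + 2 : ℕ)) :
    ∀ i ∈ Ioo (1 : ℤ) (N + 1 : ℕ), 0 < tau (N + 1) u g i (N + 2 : ℕ) := by
  intro i hi
  have hi' := Finset.mem_Ioo.1 hi
  set w := u i (N + 1 : ℕ) with hw
  have hnd : ¬ (N : ℤ) ∣ (i - 1) := not_dvd (by omega) (by push_cast at hi'; omega)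
    (by push_cast at hi'; omega)
  have hdiv : (i - 1) / (N : ℤ) = 0 := div_lo (by omega) (by push_cast at hi'; omega)
  have hφ : psi N (i - 1) = i := by
    unfold psi phi
    rw [if_neg hnd, hdiv]; ring
  have hz : (if (N : ℤ) ∣ (i - 1) then phi N (i - 1) else
      ((N : ℤ) + 1) * ((i - 1) / (N : ℤ) + 1)) = ((N + 1 : ℕ) : ℤ) := by
    rw [if_neg hnd, hdiv]; push_cast; ring
  have hmem : ((N + 1 : ℕ) : ℤ) ∈ Ioo i (i + ((N + 1 : ℕ) : ℤ)) :=
    Finset.mem_Ioo.2 ⟨hi'.2, by omega⟩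
  have hgi := hg i (Finset.mem_Ioo.2 ⟨hi'.1, by push_cast at *; omega⟩)
  have key := transfer hN hPP (del_one N hN) H g w (hgw w) (i - 1)
    (by
      simp only [hφ, hz]
      rw [g_erase g (u i) hmem hgi w, ← hw, sub_self, zero_div, Real.sin_zero, zero_mul])
    (by
      intro b hb
      rw [Finset.mem_Ioo] at hb
      have hb1 : 0 < b := by omega
      rcases lt_trichotomy b (N : ℤ) with hbN | hbN | hbN
      · have hnb : ¬ (N : ℤ) ∣ b := not_dvd hb1 (by omega) (by omega)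
        have hd : b / (N : ℤ) = 0 := div_lo hb1.le hbN
        have hφb : psi N b = b + 1 := by unfold psi phi; rw [if_neg hnb, hd]; ring
        have hzb : (if (N : ℤ) ∣ b then phi N b else
            ((N : ℤ) + 1) * (b / (N : ℤ) + 1)) = ((N + 1 : ℕ) : ℤ) := by
          rw [if_neg hnb, hd]; push_cast; ring
        simp only [hφb, hzb]
        have hq : b + 1 ∈ Ioo (1 : ℤ) (N + 1 : ℕ) :=
          Finset.mem_Ioo.2 ⟨by omega, by push_cast; omega⟩
        have hq2 : b + 1 ∈ Ioo (1 : ℤ) (N + 2 : ℕ) :=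
          Finset.mem_Ioo.2 ⟨by omega, by push_cast; omega⟩
        have hqm : ((N + 1 : ℕ) : ℤ) ∈ Ioo (b + 1) (b + 1 + ((N + 1 : ℕ) : ℤ)) :=
          Finset.mem_Ioo.2 ⟨by push_cast; omega, by omega⟩
        have h1 := row_lo g hqm (hg _ hq2) (ht _ hq) (w := w)
          (H.lt (by omega) (by omega) (le_refl _) hi'.2 (by omega) (by push_cast; omega) (by omega)
            (Or.inl (by omega)))
          (H.lt_add (by omega) (by push_cast; omega) (by push_cast; omega) hi'.2 (by omega)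
            (by push_cast; omega) (by omega) (Or.inl (by push_cast at *; omega)))
        rw [sg_succ] at h1
        linarith
      · subst hbN
        have hnb : (N : ℤ) ∣ (N : ℤ) := dvd_refl _
        have hd : (N : ℤ) / (N : ℤ) = 1 := Int.ediv_self (by omega)
        have hφb : psi N (N : ℤ) = ((N + 1 : ℕ) : ℤ) := by
          unfold psi phi; rw [if_pos hnb, hd]; push_cast; ring
        have hzb : (if (N : ℤ) ∣ (N : ℤ) then phi N (N : ℤ) else
            ((N : ℤ) + 1) * ((N : ℤ) / (N : ℤ) + 1)) = ((N + 2 : ℕ) : ℤ) := by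
          unfold phi
          rw [if_pos hnb, hd]; push_cast; ring
        simp only [hφb, hzb]
        have hq2 : ((N + 1 : ℕ) : ℤ) ∈ Ioo (1 : ℤ) (N + 2 : ℕ) :=
          Finset.mem_Ioo.2 ⟨by push_cast; omega, by push_cast; omega⟩
        have hqm : ((N + 2 : ℕ) : ℤ) ∈ Ioo ((N + 1 : ℕ) : ℤ) (((N + 1 : ℕ) : ℤ) + ((N + 1 : ℕ) : ℤ)) :=
          Finset.mem_Ioo.2 ⟨by push_cast; omega, by push_cast; omega⟩
        have h1 := row_lo g hqm (hg _ hq2) ht' (w := w)
          (H.lt (by omega) (by omega) (by push_cast; omega) hi'.2 (by omega) (by push_cast; omega)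
            (by push_cast; omega) (Or.inl (by omega)))
          (H.lt_add (by omega) (by push_cast; omega) (by push_cast; omega) hi'.2 (by omega)
            (by push_cast; omega) (by push_cast; omega) (Or.inl (by push_cast at *; omega)))
        have h2 : sg ((N + 1 : ℕ) : ℤ) = -sg (N : ℤ) := by
          rw [← sg_succ]; push_cast; rfl
        rw [h2] at h1
        linarith
      · have hnb : ¬ (N : ℤ) ∣ b := not_dvd hb1 (by push_cast at *; omega) (by omega)
        have hd : b / (N : ℤ) = 1 := div_hi hbN.le (by push_cast at *; omega) hN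
        have hφb : psi N b = (b + 1 - N) + (N + 1 : ℕ) := by
          unfold psi phi; rw [if_neg hnb, hd]; push_cast; ring
        have hzb : (if (N : ℤ) ∣ b then phi N b else
            ((N : ℤ) + 1) * (b / (N : ℤ) + 1)) = ((N + 1 : ℕ) : ℤ) + ((N + 1 : ℕ) : ℤ) := by
          rw [if_neg hnb, hd]; push_cast; ring
        simp only [hφb, hzb]
        have hq : b + 1 - N ∈ Ioo (1 : ℤ) (N + 1 : ℕ) :=
          Finset.mem_Ioo.2 ⟨by omega, by push_cast at *; omega⟩
        have hq2 : b + 1 - N ∈ Ioo (1 : ℤ) (N + 2 : ℕ) :=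
          Finset.mem_Ioo.2 ⟨by omega, by push_cast at *; omega⟩
        have hqm : ((N + 1 : ℕ) : ℤ) ∈ Ioo (b + 1 - N) (b + 1 - N + ((N + 1 : ℕ) : ℤ)) :=
          Finset.mem_Ioo.2 ⟨by push_cast at *; omega, by omega⟩
        have h1 := row_hi H g hqm (hg _ hq2) (ht _ hq) (w := w)
          (H.lt (by omega) (by push_cast at *; omega) (le_refl _) (by push_cast at *; omega)
            (by push_cast at *; omega) (by push_cast at *; omega) (by push_cast at *; omega)
            (Or.inl (by push_cast at *; omega)))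
          (H.lt_add (by omega) (by push_cast at *; omega) (by push_cast at *; omega)
            (by push_cast at *; omega) (by push_cast at *; omega)
            (by push_cast at *; omega) (by push_cast at *; omega)
            (Or.inl (by push_cast at *; omega)))
        have h2 : sg (b + 1 - N + ((N + 1 : ℕ) : ℤ)) = sg b := by
          rw [show b + 1 - N + ((N + 1 : ℕ) : ℤ) = b + 1 + 1 by push_cast; ring, sg_succ, sg_succ,
            neg_neg]
        rw [h2] at h1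
        linarith)
  have hl : ((N + 2 : ℕ) : ℤ) ∈ Ioo i (i + ((N + 1 : ℕ) : ℤ)) :=
    Finset.mem_Ioo.2 ⟨by push_cast at *; omega, by push_cast at *; omega⟩
  have hlN : ((N + 2 : ℕ) : ℤ) ≠ ((N + 1 : ℕ) : ℤ) := by push_cast; omega
  have h3 := key ((N + 2 : ℕ) : ℤ) (by rw [hφ]; exact hl) (by simp only [hz]; exact hlN)
  simp only [hφ, hz] at h3
  unfold tau
  rw [sg_pred] at h3
  have h4 : S w * (P (u i) (((Ioo i (i + ((N + 1 : ℕ) : ℤ))).erase ((N + 1 : ℕ) : ℤ)).erase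
      ((N + 2 : ℕ) : ℤ)) * K (u i ((N + 2 : ℕ) : ℤ))) =
      P (u i) ((Ioo i (i + ((N + 1 : ℕ) : ℤ))).erase ((N + 2 : ℕ) : ℤ)) *
        K (u i ((N + 2 : ℕ) : ℤ)) := by
    rw [Finset.erase_right_comm, ← mul_assoc, hw,
      P_erase (u i) (Finset.mem_erase.2 ⟨fun h => hlN h.symm, hmem⟩)]
  rw [h4] at h3
  linarith

/-- the slope at the missing column, last row -/
theorem keyC (hN : 2 ≤ N) (hPP : PP N) (H : KArr (N + 1) u) (g : ℝ[X] →ₗ[ℝ] ℝ)
    (hg : ∀ q ∈ Ioo (0 : ℤ) (N + 1 : ℕ), g (P (u q) (Ioo q (q + (N + 1 : ℕ)))) = 0)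
    (hne : ¬ ∀ f ∈ degreeLT ℝ (N + 1), g f = 0)
    (ht : ∀ q ∈ Ioo (0 : ℤ) (N + 1 : ℕ), 0 ≤ tau (N + 1) u g q (N + 1 : ℕ)) :
    0 < tau (N + 1) u g N (N + 1 : ℕ) := by
  have hi : (N : ℤ) ∈ Ioo (0 : ℤ) (N + 1 : ℕ) :=
    Finset.mem_Ioo.2 ⟨by omega, by push_cast; omega⟩
  refine lt_of_le_of_ne (ht _ hi) fun h0 => ?_
  have h0' : g (P (u N) ((Ioo (N : ℤ) (N + (N + 1 : ℕ))).erase ((N + 1 : ℕ) : ℤ)) *
      K (u N (N + 1 : ℕ))) = 0 := by
    unfold tau at h0
    have h1 := sg_sq (N : ℤ)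
    have h2 : sg (N : ℤ) * (sg (N : ℤ) * g (P (u N) ((Ioo (N : ℤ) (N + (N + 1 : ℕ))).erase
      ((N + 1 : ℕ) : ℤ)) * K (u N (N + 1 : ℕ)))) = 0 := by rw [← h0, mul_zero]
    rw [← mul_assoc, h1, one_mul] at h2
    exact h2
  have hmem : ((N + 1 : ℕ) : ℤ) ∈ Ioo (N : ℤ) (N + ((N + 1 : ℕ) : ℤ)) :=
    Finset.mem_Ioo.2 ⟨by push_cast; omega, by push_cast; omega⟩
  have hall : ∀ w, g (S w * P (u N) ((Ioo (N : ℤ) (N + (N + 1 : ℕ))).erase
      ((N + 1 : ℕ) : ℤ))) = 0 := by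
    intro w
    rw [g_erase g (u N) hmem (hg _ hi) w, h0', mul_zero]
  set t := u N (N + 2 : ℕ) with htdef
  have hdiv : ((N : ℤ) - 1) / (N : ℤ) = 0 := div_lo (by omega) (by omega)
  have hφ : phi N ((N : ℤ) - 1) = N := by
    unfold phi
    rw [hdiv]; ring
  have hz : ((N : ℤ) + 1) * (((N : ℤ) - 1) / (N : ℤ) + 1) = ((N + 1 : ℕ) : ℤ) := by
    rw [hdiv]; push_cast; ring
  have key := transfer hN hPP (del_zero N (by omega)) H g t (gw_ne hN H g hg hne t) ((N : ℤ) - 1)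
    (by
      simp only [hφ, hz]
      exact hall t)
    (by
      intro b hb
      rw [Finset.mem_Ioo] at hb
      have hbN : (N : ℤ) ≤ b := by omega
      have hd : b / (N : ℤ) = 1 := div_hi hbN (by omega) hN
      have hφb : phi N b = (b + 1 - N) + (N + 1 : ℕ) := by unfold phi; rw [hd]; push_cast; ring
      have hzb : ((N : ℤ) + 1) * (b / (N : ℤ) + 1) = ((N + 1 : ℕ) : ℤ) + ((N + 1 : ℕ) : ℤ) := by
        rw [hd]; push_cast; ring
      simp only [hφb, hzb]
      have hq : b + 1 - N ∈ Ioo (0 : ℤ) (N + 1 : ℕ) :=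
        Finset.mem_Ioo.2 ⟨by omega, by push_cast at *; omega⟩
      have hqm : ((N + 1 : ℕ) : ℤ) ∈ Ioo (b + 1 - N) (b + 1 - N + ((N + 1 : ℕ) : ℤ)) :=
        Finset.mem_Ioo.2 ⟨by push_cast at *; omega, by omega⟩
      have h1 := row_hi H g hqm (hg _ hq) (ht _ hq) (w := t)
        (H.lt (by omega) (by push_cast at *; omega) (by push_cast; omega) (by push_cast at *; omega)
          (by push_cast at *; omega) (by push_cast at *; omega) (by push_cast at *; omega)
          (Or.inl (by push_cast at *; omega)))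
        (H.lt_add (by omega) (by push_cast at *; omega) (by push_cast at *; omega)
          (by push_cast at *; omega) (by push_cast at *; omega)
          (by push_cast at *; omega) (by push_cast at *; omega)
          (Or.inl (by push_cast at *; omega)))
      have h2 : sg (b + 1 - N + ((N + 1 : ℕ) : ℤ)) = sg b := by
        rw [show b + 1 - N + ((N + 1 : ℕ) : ℤ) = b + 1 + 1 by push_cast; ring, sg_succ, sg_succ,
          neg_neg]
      rw [h2] at h1
      linarith)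
  have hl : ((N + 2 : ℕ) : ℤ) ∈ Ioo (N : ℤ) (N + ((N + 1 : ℕ) : ℤ)) :=
    Finset.mem_Ioo.2 ⟨by push_cast at *; omega, by push_cast at *; omega⟩
  have hlN : ((N + 2 : ℕ) : ℤ) ≠ ((N + 1 : ℕ) : ℤ) := by push_cast; omega
  have h3 := key ((N + 2 : ℕ) : ℤ) (by rw [hφ]; exact hl) (by simp only [hz]; exact hlN)
  simp only [hφ, hz] at h3
  have h4 : S t * (P (u N) (((Ioo (N : ℤ) (N + ((N + 1 : ℕ) : ℤ))).erase ((N + 1 : ℕ) : ℤ)).erase
      ((N + 2 : ℕ) : ℤ)) * K (u N ((N + 2 : ℕ) : ℤ))) =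
      -(S (t + Real.pi) * P (u N) ((Ioo (N : ℤ) (N + ((N + 1 : ℕ) : ℤ))).erase
        ((N + 1 : ℕ) : ℤ))) := by
    rw [← mul_assoc, htdef, P_erase (u N) (Finset.mem_erase.2 ⟨hlN, hl⟩), S_pi]
    ring
  rw [h4, map_neg, hall] at h3
  simp at h3

/-- The key lemma. -/
theorem key (hN : 2 ≤ N) (hPP : PP N) (H : KArr (N + 1) u) (g : ℝ[X] →ₗ[ℝ] ℝ)
    (hg : ∀ q ∈ Ioo (0 : ℤ) (N + 1 : ℕ), g (P (u q) (Ioo q (q + (N + 1 : ℕ)))) = 0)
    (hne : ¬ ∀ f ∈ degreeLT ℝ (N + 1), g f = 0)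
    (ht : ∀ q ∈ Ioo (0 : ℤ) (N + 1 : ℕ), 0 ≤ tau (N + 1) u g q (N + 1 : ℕ)) :
    ∀ i ∈ Ioo (0 : ℤ) (N + 1 : ℕ), ∀ l ∈ Ioo i (i + ((N + 1 : ℕ) : ℤ)),
      0 < tau (N + 1) u g i l := by
  intro i hi l hl
  by_cases hlN : l = (N + 1 : ℕ)
  swap
  · exact keyA hN hPP H g hg hne ht i hi l hl hlN
  subst hlN
  have hi' := Finset.mem_Ioo.1 hi
  by_cases hiN : i = N
  · subst hiN
    exact keyC hN hPP H g hg hne ht
  -- the shifted array
  have Hv := H.shift (-1)
  have hrow : ∀ q : ℤ, P ((fun i j => u (i + -1) (j + -1)) q) (Ioo q (q + (N + 1 : ℕ))) =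
      P (u (q - 1)) (Ioo (q - 1) (q - 1 + (N + 1 : ℕ))) := by
    intro q
    have h1 := P_image (u (q + -1)) (fun j => j + -1) (add_left_injective _)
      (Ioo q (q + ((N + 1 : ℕ) : ℤ)))
    rw [show (Ioo q (q + ((N + 1 : ℕ) : ℤ))).image (fun j => j + -1) =
      (Ioo q (q + ((N + 1 : ℕ) : ℤ))).image (· + -1) from rfl, Ioo_image] at h1
    exact h1
  have htau : ∀ q l : ℤ, tau (N + 1) (fun i j => u (i + -1) (j + -1)) (-g) q l =
      tau (N + 1) u g (q - 1) (l - 1) := by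
    intro q l
    unfold tau
    have h1 := P_image (u (q + -1)) (fun j => j + -1) (add_left_injective _)
      ((Ioo q (q + ((N + 1 : ℕ) : ℤ))).erase l)
    rw [show ((Ioo q (q + ((N + 1 : ℕ) : ℤ))).erase l).image (fun j => j + -1) =
      ((Ioo q (q + ((N + 1 : ℕ) : ℤ))).erase l).image (· + -1) from rfl, erase_Ioo_image] at h1
    rw [h1, sg_pred, LinearMap.neg_apply]
    rw [← sub_eq_add_neg, ← sub_eq_add_neg]
    ring_nf
  have hB := keyB hN hPP Hv (-g)
    (by
      intro q hq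
      rw [hrow, LinearMap.neg_apply, hg (q - 1), neg_zero]
      rw [Finset.mem_Ioo] at hq ⊢
      constructor <;> (push_cast at *; omega))
    (by
      intro w hw
      apply gw_ne hN H g hg hne w
      intro f hf
      have := hw f hf
      rw [LinearMap.neg_apply] at this
      linarith)
    (by
      intro q hq
      rw [Finset.mem_Ioo] at hq
      rw [htau]
      exact (keyA hN hPP H g hg hne ht (q - 1)
        (Finset.mem_Ioo.2 ⟨by omega, by push_cast at *; omega⟩) _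
        (Finset.mem_Ioo.2 ⟨by push_cast at *; omega, by push_cast at *; omega⟩)
        (by push_cast; omega)).le)
    (by
      rw [htau]
      have h1 : (((N + 1 : ℕ) : ℤ) - 1) = N := by push_cast; ring
      have h2 : (((N + 2 : ℕ) : ℤ) - 1) = ((N + 1 : ℕ) : ℤ) := by push_cast; ring
      rw [h1, h2]
      exact ht N (Finset.mem_Ioo.2 ⟨by omega, by push_cast; omega⟩))
    (i + 1) (Finset.mem_Ioo.2 ⟨by omega, by push_cast at *; omega⟩)
  rw [htau] at hB
  have h2 : (((N + 2 : ℕ) : ℤ) - 1) = ((N + 1 : ℕ) : ℤ) := by push_cast; ring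
  rw [h2, add_sub_cancel_right] at hB
  exact hB

end

end Pool.Agent.H40.Atiyah
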