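import Pool.Agent.H40.Atiyah.Det

/-!
# Linear independence for cyclic arrays
-/

set_option autoImplicit false

namespace Pool.Agent.H40.Atiyah

open Finset Polynomial

section

variable {N : ℕ} {u : ℤ → ℤ → ℝ}

/-- if no functional kills all rows, the rows span -/
theorem span_rows {n : ℕ} (R : ℤ → ℝ[X])
    (h : ∀ g : ℝ[X] →ₗ[ℝ] ℝ, (∀ q ∈ Ico (0 : ℤ) n, g (R q) = 0) → ∀ f ∈ degreeLT ℝ n, g f = 0)
    (f : ℝ[X]) (hf : f ∈ degreeLT ℝ n) : ∃ c : ℤ → ℝ, f = ∑ q ∈ Ico (0 : ℤ) n, c q • R q := by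
  have h1 : f ∈ Submodule.span ℝ (R '' (Ico (0 : ℤ) n : Set ℤ)) := by
    by_contra hcon
    obtain ⟨g, hg, hle⟩ := Submodule.exists_le_ker_of_notMem hcon
    apply hg
    apply h g _ f hf
    intro q hq
    exact hle (Submodule.subset_span (Set.mem_image_of_mem R hq))
  rw [Submodule.mem_span_image_finset_iff_exists_fun] at h1
  obtain ⟨c, hc⟩ := h1
  refine ⟨fun q => if hq : q ∈ Ico (0 : ℤ) n then c ⟨q, hq⟩ else 0, ?_⟩
  rw [← hc, ← Finset.sum_coe_sort (Ico (0 : ℤ) n)]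
  refine Finset.sum_congr rfl fun q _ => ?_
  have hq : (fun q => if hq : q ∈ Ico (0 : ℤ) n then c ⟨q, hq⟩ else 0) (q : ℤ) = c q :=
    dif_pos q.2
  rw [hq]

/-- `P_n` at the row `0` -/
theorem pp_zero (hN : 2 ≤ N) (hPP : PP N) (H : KArr (N + 1) u) (h : ℝ[X] →ₗ[ℝ] ℝ)
    (hne : ¬ ∀ f ∈ degreeLT ℝ (N + 1), h f = 0)
    (h0 : h (P (u 0) (Ioo (0 : ℤ) (0 + (N + 1 : ℕ)))) = 0)
    (hq : ∀ q ∈ Ioo (0 : ℤ) (0 + ((N + 1 : ℕ) : ℤ)),
      0 ≤ sg q * h (P (u q) (Ioo q (q + (N + 1 : ℕ))))) :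
    ∀ l ∈ Ioo (0 : ℤ) (0 + ((N + 1 : ℕ) : ℤ)), 0 < tau (N + 1) u h 0 l := by
  intro l hl
  have hDn : ∀ g : ℝ[X] →ₗ[ℝ] ℝ, (∀ q ∈ Ico (0 : ℤ) (N + 1 : ℕ),
      g (P (u q) (Ioo q (q + (N + 1 : ℕ)))) = 0) → ∀ f ∈ degreeLT ℝ (N + 1), g f = 0 := by
    intro g hg
    exact dne hN hPP H g (kill_all (by omega) H g hg)
  set Y := P (u 0) ((Ioo (0 : ℤ) (0 + ((N + 1 : ℕ) : ℤ))).erase l) * K (u 0 l) with hY
  have hYm : Y ∈ degreeLT ℝ (N + 1) := by
    apply slope_mem
    rw [Finset.card_erase_of_mem hl, Int.card_Ioo]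
    omega
  obtain ⟨c, hc⟩ := span_rows (fun q => P (u q) (Ioo q (q + (N + 1 : ℕ)))) hDn Y hYm
  -- the signs of the coefficients
  have hcpos : ∀ q ∈ Ioo (0 : ℤ) (N + 1 : ℕ), 0 < sg q * c q := by
    intro q hq'
    rw [Finset.mem_Ioo] at hq'
    set k : ℤ := q - (N + 1 : ℕ) with hk
    have Hk := H.shift k
    -- a functional killing all rows but `q`
    obtain ⟨a, ha, hkill⟩ := exists_kill N (fun i => P (u (i + k)) (Ioo (i + k) (i + k + (N + 1 : ℕ))))
    have ha0 : a ≠ 0 := by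
      rintro rfl
      simp at ha
    have hkill' : ∀ i ∈ Ioo (0 : ℤ) (N + 1 : ℕ),
        fn a (P ((fun i j => u (i + k) (j + k)) i) (Ioo i (i + (N + 1 : ℕ)))) = 0 := by
      intro i hi
      rw [row_shift]
      exact hkill i hi
    obtain ⟨g, hg, hgne, hgt⟩ : ∃ g : ℝ[X] →ₗ[ℝ] ℝ,
        (∀ i ∈ Ioo (0 : ℤ) (N + 1 : ℕ),
          g (P ((fun i j => u (i + k) (j + k)) i) (Ioo i (i + (N + 1 : ℕ)))) = 0) ∧
        (¬ ∀ f ∈ degreeLT ℝ (N + 1), g f = 0) ∧
        (∀ i ∈ Ioo (0 : ℤ) (N + 1 : ℕ), ∀ l ∈ Ioo i (i + ((N + 1 : ℕ) : ℤ)),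
          0 < tau (N + 1) (fun i j => u (i + k) (j + k)) g i l) := by
      rcases sgn_full hN hPP Hk (fn a) hkill' (fn_ne ha0) with h1 | h1
      · exact ⟨fn a, hkill', fn_ne ha0, h1⟩
      · refine ⟨-fn a, fun i hi => by rw [LinearMap.neg_apply, hkill' i hi, neg_zero], ?_,
          fun i hi l hl => by rw [tau_neg]; have := h1 i hi l hl; linarith⟩
        intro hz
        apply fn_ne ha0
        intro f hf
        have := hz f hf
        rw [LinearMap.neg_apply] at this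
        linarith
    have hmemN : ∀ q ∈ Ioo (0 : ℤ) (N + 1 : ℕ),
        ((N + 1 : ℕ) : ℤ) ∈ Ioo q (q + ((N + 1 : ℕ) : ℤ)) := by
      intro q hq
      rw [Finset.mem_Ioo] at hq ⊢
      omega
    have hd := dpos hN hPP Hk g hg hgne (fun i hi => (hgt i hi _ (hmemN i hi)).le)
    rw [row_shift] at hd
    rw [show ((N + 1 : ℕ) : ℤ) + k = q by rw [hk]; ring] at hd
    -- g kills the other rows of the window
    have hgk : ∀ r ∈ Ico (0 : ℤ) (N + 1 : ℕ), r ≠ q →
        g (P (u r) (Ioo r (r + (N + 1 : ℕ)))) = 0 := by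
      intro r hr hrq
      rw [Finset.mem_Ico] at hr
      rcases lt_or_gt_of_ne hrq with h1 | h1
      · have h2 := hg (r - k) (Finset.mem_Ioo.2 ⟨by omega, by omega⟩)
        rw [row_shift, sub_add_cancel] at h2
        exact h2
      · have h2 := hg (r - k - (N + 1 : ℕ)) (Finset.mem_Ioo.2 ⟨by omega, by omega⟩)
        rw [row_shift] at h2
        have h3 := kill_add H g _ h2
        rw [show r - k - ((N + 1 : ℕ) : ℤ) + k + ((N + 1 : ℕ) : ℤ) = r by ring] at h3
        exact h3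
    have hgY : g Y = c q * g (P (u q) (Ioo q (q + (N + 1 : ℕ)))) := by
      rw [hc, map_sum, Finset.sum_eq_single q]
      · rw [map_smul, smul_eq_mul]
      · intro r hr hrq
        rw [map_smul, hgk r hr hrq, smul_zero]
      · intro h1
        exact absurd (Finset.mem_Ico.2 ⟨by omega, by omega⟩) h1
    have hti := hgt (-k) (Finset.mem_Ioo.2 ⟨by omega, by omega⟩) (l - k)
      (by
        rw [Finset.mem_Ioo] at hl ⊢
        constructor <;> omega)
    rw [tau_shift, neg_add_cancel, sub_add_cancel] at hti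
    have hti' : 0 < sg k * g Y := by
      have : tau (N + 1) u g 0 l = g Y := by
        unfold tau
        rw [← hY]
        unfold sg
        simp
      rw [this] at hti
      exact hti
    rw [hgY] at hti'
    have hsk : sg k = sg q * sg ((N + 1 : ℕ) : ℤ) := by
      have h1 : sg (k + ((N + 1 : ℕ) : ℤ)) = sg k * sg ((N + 1 : ℕ) : ℤ) := sg_add _ _
      rw [show k + ((N + 1 : ℕ) : ℤ) = q by rw [hk]; ring] at h1
      have h2 := sg_sq ((N + 1 : ℕ) : ℤ)
      rw [h1, mul_assoc, h2, mul_one]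
    rw [hsk] at hti'
    have h3 : 0 < (sg ((N + 1 : ℕ) : ℤ) * g (P (u q) (Ioo q (q + (N + 1 : ℕ))))) * (sg q * c q) := by
      calc (0 : ℝ) < _ := hti'
        _ = _ := by ring
    exact pos_of_mul_pos_right h3 hd.le
  have hval : tau (N + 1) u h 0 l = ∑ q ∈ Ioo (0 : ℤ) (N + 1 : ℕ),
      (sg q * c q) * (sg q * h (P (u q) (Ioo q (q + (N + 1 : ℕ))))) := by
    have h1 : tau (N + 1) u h 0 l = h Y := by
      unfold tau
      rw [← hY]
      unfold sg
      simp
    rw [h1, hc, map_sum]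
    have h2 : Ico (0 : ℤ) ((N + 1 : ℕ) : ℤ) = insert 0 (Ioo (0 : ℤ) ((N + 1 : ℕ) : ℤ)) := by
      ext x
      simp only [Finset.mem_insert, Finset.mem_Ico, Finset.mem_Ioo]
      omega
    rw [h2, Finset.sum_insert (by simp)]
    have h3 : h (c 0 • P (u 0) (Ioo (0 : ℤ) (0 + (N + 1 : ℕ)))) = 0 := by
      rw [map_smul, h0, smul_zero]
    rw [h3, zero_add]
    refine Finset.sum_congr rfl fun q _ => ?_
    rw [map_smul, smul_eq_mul]
    have := sg_sq q
    linear_combination (-(c q * h (P (u q) (Ioo q (q + (N + 1 : ℕ)))))) * this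
  have hq' : ∀ q ∈ Ioo (0 : ℤ) (N + 1 : ℕ), 0 ≤ sg q * h (P (u q) (Ioo q (q + (N + 1 : ℕ)))) := by
    intro q hqq
    apply hq
    rw [zero_add]
    exact hqq
  -- some row is not killed
  obtain ⟨q, hqm, hqne⟩ : ∃ q ∈ Ioo (0 : ℤ) (N + 1 : ℕ),
      h (P (u q) (Ioo q (q + (N + 1 : ℕ)))) ≠ 0 := by
    by_contra hcon
    push Not at hcon
    apply hne
    apply hDn h
    intro q hqq
    rw [Finset.mem_Ico] at hqq
    rcases eq_or_lt_of_le hqq.1 with h1 | h1
    · rw [← h1]; exact h0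
    · exact hcon q (Finset.mem_Ioo.2 ⟨h1, hqq.2⟩)
  rw [hval]
  apply Finset.sum_pos' (fun r hr => mul_nonneg (hcpos r hr).le (hq' r hr))
  refine ⟨q, hqm, mul_pos (hcpos q hqm) (lt_of_le_of_ne (hq' q hqm) fun h1 => ?_)⟩
  have h2 := sg_sq q
  apply hqne
  have h3 : sg q * (sg q * h (P (u q) (Ioo q (q + (N + 1 : ℕ))))) = 0 := by rw [← h1, mul_zero]
  rw [← mul_assoc, h2, one_mul] at h3
  exact h3

theorem pp_succ (hN : 2 ≤ N) (hPP : PP N) : PP (N + 1) := by
  intro u H h hne i h0 hq l hl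
  have Hi := H.shift i
  have hs := sg_sq i
  have hsne : sg i ≠ 0 := by
    intro h1
    rw [h1] at hs
    norm_num at hs
  have key := pp_zero hN hPP Hi (sg i • h)
    (by
      intro hz
      apply hne
      intro f hf
      have := hz f hf
      rw [LinearMap.smul_apply, smul_eq_mul] at this
      exact (mul_eq_zero.1 this).resolve_left hsne)
    (by
      rw [row_shift, zero_add, LinearMap.smul_apply, h0, smul_zero])
    (by
      intro q hqq
      rw [row_shift, LinearMap.smul_apply, smul_eq_mul, ← mul_assoc, ← sg_add]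
      apply hq
      rw [Finset.mem_Ioo] at hqq ⊢
      constructor <;> omega)
    (l - i)
    (by
      rw [Finset.mem_Ioo] at hl ⊢
      constructor <;> omega)
  rw [tau_shift, zero_add, sub_add_cancel, tau_smul, ← mul_assoc, hs, one_mul] at key
  exact key

theorem pp_all : ∀ n : ℕ, 2 ≤ n → PP n := by
  intro n hn
  induction n, hn using Nat.le_induction with
  | base => exact pp_two
  | succ n hn ih => exact pp_succ hn ih

/-- No functional kills all the rows. -/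
theorem core {n : ℕ} (hn : 2 ≤ n) (H : KArr n u) (h : ℝ[X] →ₗ[ℝ] ℝ)
    (h0 : ∀ q ∈ Ico (0 : ℤ) n, h (P (u q) (Ioo q (q + n))) = 0) :
    ∀ f ∈ degreeLT ℝ n, h f = 0 := by
  have hall := kill_all (by omega) H h h0
  by_contra hne
  have h1 := pp_all n hn u H h hne 0 (hall 0) (fun q _ => by rw [hall q, mul_zero]) 1
    (Finset.mem_Ioo.2 ⟨by omega, by omega⟩)
  have h2 := pp_all n hn u H h hne n (hall n) (fun q _ => by rw [hall q, mul_zero]) (1 + n)
    (Finset.mem_Ioo.2 ⟨by omega, by omega⟩)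
  have h3 := tau_add H h 0 1 (Finset.mem_Ioo.2 ⟨by omega, by omega⟩)
  rw [zero_add] at h3
  rw [h3] at h2
  linarith

/-- The rows are linearly independent. -/
theorem core_linInd {n : ℕ} (hn : 2 ≤ n) (H : KArr n u) :
    LinearIndependent ℝ (fun q : Fin n => P (u (q : ℕ)) (Ioo ((q : ℕ) : ℤ) (((q : ℕ) : ℤ) + n))) := by
  have hmem : ∀ q : ℤ, P (u q) (Ioo q (q + (n : ℤ))) ∈ degreeLT ℝ n := fun q =>
    P_mem _ _ (by rw [Int.card_Ioo]; omega)
  set v : Fin n → degreeLT ℝ n := fun q => ⟨_, hmem (q : ℕ)⟩ with hv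
  have hspan : ⊤ ≤ Submodule.span ℝ (Set.range v) := by
    rintro ⟨f, hf⟩ -
    obtain ⟨c, hc⟩ := span_rows (fun q => P (u q) (Ioo q (q + (n : ℤ))))
      (fun g hg => core hn H g hg) f hf
    have h1 : (⟨f, hf⟩ : degreeLT ℝ n) = ∑ q : Fin n, c (q : ℕ) • v q := by
      apply Subtype.ext
      rw [Submodule.coe_sum]
      simp only [Submodule.coe_smul, hv]
      rw [hc, Fin.sum_univ_eq_sum_range (fun q => c (q : ℕ) • P (u (q : ℕ))
        (Ioo ((q : ℕ) : ℤ) (((q : ℕ) : ℤ) + n))) n]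
      symm
      refine Finset.sum_bij (fun (a : ℕ) _ => (a : ℤ)) ?_ ?_ ?_ ?_
      · intro a ha
        rw [Finset.mem_range] at ha
        exact Finset.mem_Ico.2 ⟨by omega, by omega⟩
      · intro a _ b _ hab
        exact_mod_cast hab
      · intro b hb
        rw [Finset.mem_Ico] at hb
        exact ⟨b.toNat, Finset.mem_range.2 (by omega), by omega⟩
      · intro a _
        rfl
    rw [h1]
    exact Submodule.sum_mem _ fun q _ => Submodule.smul_mem _ _
      (Submodule.subset_span (Set.mem_range_self q))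
  have hcard : Fintype.card (Fin n) = Module.finrank ℝ (degreeLT ℝ n) := by
    rw [Fintype.card_fin, LinearEquiv.finrank_eq (degreeLTEquiv ℝ n)]
    simp
  have hli := linearIndependent_of_top_le_span_of_card_eq_finrank hspan hcard
  have := hli.map' (degreeLT ℝ n).subtype (Submodule.ker_subtype _)
  exact this

end

end Pool.Agent.H40.Atiyah
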