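import Pool.Agent.H40.Atiyah.Form

/-!
# Slopes, and the transfer to the array with one vertex deleted
-/

set_option autoImplicit false

namespace Pool.Agent.H40.Atiyah

open Finset Polynomial

/-- the sign `(-1) ^ i` -/
noncomputable def sg (i : ℤ) : ℝ := (-1 : ℝ) ^ i

theorem sg_succ (i : ℤ) : sg (i + 1) = -sg i := by
  unfold sg
  rw [zpow_add_one₀ (by norm_num)]
  ring

theorem sg_add (i j : ℤ) : sg (i + j) = sg i * sg j := by
  unfold sg
  exact zpow_add₀ (by norm_num) i j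

theorem sg_nat (n : ℕ) : sg (n : ℤ) = (-1) ^ n := by
  unfold sg
  exact zpow_natCast _ _

theorem sg_sq (i : ℤ) : sg i * sg i = 1 := by
  rw [← sg_add]
  unfold sg
  rw [← two_mul, zpow_mul]
  norm_num

theorem sg_pred (i : ℤ) : sg (i - 1) = -sg i := by
  have := sg_succ (i - 1)
  rw [sub_add_cancel] at this
  linarith

/-- minus twice the derivative of `g (B i)` with respect to the angle `u i l` -/
noncomputable def tau (n : ℕ) (u : ℤ → ℤ → ℝ) (g : ℝ[X] →ₗ[ℝ] ℝ) (i l : ℤ) : ℝ :=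
  sg i * g (P (u i) ((Ioo i (i + n)).erase l) * K (u i l))

theorem P_image (x : ℤ → ℝ) (φ : ℤ → ℤ) (hφ : Function.Injective φ) (L : Finset ℤ) :
    P (fun b => x (φ b)) L = P x (L.image φ) := by
  unfold P
  rw [Finset.prod_image (fun a _ b _ h => hφ h)]

theorem P_turn (x y : ℤ → ℝ) (L : Finset ℤ) (n : ℤ) (h : ∀ j, y (j + n) = x j + 2 * Real.pi) :
    P y (L.image (· + n)) = C ((-1) ^ L.card) * P x L := by
  unfold P
  rw [Finset.prod_image (fun a _ b _ h => add_right_cancel h)]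
  have h1 : ∀ j ∈ L, S (y (j + n)) = -1 * S (x j) := by
    intro j _
    rw [h, S_two_pi]; ring
  rw [Finset.prod_congr rfl h1, Finset.prod_mul_distrib, Finset.prod_const]
  simp

theorem Ioo_image (i n k : ℤ) : (Ioo i (i + n)).image (· + k) = Ioo (i + k) (i + k + n) := by
  ext x
  simp only [Finset.mem_image, Finset.mem_Ioo]
  constructor
  · rintro ⟨a, ⟨h1, h2⟩, rfl⟩
    constructor <;> omega
  · rintro ⟨h1, h2⟩
    exact ⟨x - k, ⟨by omega, by omega⟩, by omega⟩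

theorem erase_Ioo_image (i n k l : ℤ) :
    ((Ioo i (i + n)).erase l).image (· + k) = (Ioo (i + k) (i + k + n)).erase (l + k) := by
  rw [Finset.image_erase (add_left_injective k), Ioo_image]

section

variable {n : ℕ} {u : ℤ → ℤ → ℝ}

theorem kill_add (H : KArr n u) (g : ℝ[X] →ₗ[ℝ] ℝ) (i : ℤ)
    (h : g (P (u i) (Ioo i (i + n))) = 0) : g (P (u (i + n)) (Ioo (i + n) (i + n + n))) = 0 := by
  rw [← Ioo_image i n n, P_turn (u i) (u (i + n)) _ _ (fun j => H.per i j), gC, h, mul_zero]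

theorem tau_add (H : KArr n u) (g : ℝ[X] →ₗ[ℝ] ℝ) (i l : ℤ) (hl : l ∈ Ioo i (i + (n : ℤ))) :
    tau n u g (i + n) (l + n) = -tau n u g i l := by
  have hc : ((Ioo i (i + (n : ℤ))).erase l).card = n - 2 := by
    rw [Finset.card_erase_of_mem hl, Int.card_Ioo]
    omega
  have hn : 2 ≤ n := by
    rw [Finset.mem_Ioo] at hl
    omega
  unfold tau
  rw [← erase_Ioo_image i n n l, P_turn (u i) (u (i + n)) _ _ (fun j => H.per i j), hc, H.per,
    K_two_pi, sg_add, sg_nat]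
  have e : C ((-1 : ℝ) ^ (n - 2)) * P (u i) ((Ioo i (i + (n : ℤ))).erase l) * -K (u i l) =
      C (-(-1 : ℝ) ^ (n - 2)) * (P (u i) ((Ioo i (i + (n : ℤ))).erase l) * K (u i l)) := by
    rw [C_neg]; ring
  rw [e, gC]
  obtain ⟨k, rfl⟩ : ∃ k, n = k + 2 := ⟨n - 2, by omega⟩
  have e2 : (-1 : ℝ) ^ (k + 2) * (-1) ^ (k + 2 - 2) = 1 := by
    rw [Nat.add_sub_cancel, ← pow_add]
    exact Even.neg_one_pow ⟨k + 1, by ring⟩
  linear_combination (-(sg i * g (P (u i) ((Ioo i (i + ((k + 2 : ℕ) : ℤ))).erase l) *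
    K (u i l)))) * e2

end

/-- the induction statement -/
def PP (n : ℕ) : Prop := ∀ u : ℤ → ℤ → ℝ, KArr n u → ∀ h : ℝ[X] →ₗ[ℝ] ℝ,
  (¬ ∀ f ∈ degreeLT ℝ n, h f = 0) → ∀ i : ℤ, h (P (u i) (Ioo i (i + n))) = 0 →
  (∀ q ∈ Ioo i (i + (n : ℤ)), 0 ≤ sg q * h (P (u q) (Ioo q (q + n)))) →
  ∀ l ∈ Ioo i (i + (n : ℤ)), 0 < tau n u h i l

theorem pp_two : PP 2 := by
  intro u H h hne i h0 hq l hl
  have hI : ∀ j : ℤ, Ioo j (j + ((2 : ℕ) : ℤ)) = {j + 1} := by
    intro j
    ext x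
    simp only [Finset.mem_Ioo, Finset.mem_singleton]
    push_cast
    omega
  have hl1 : l = i + 1 := by
    rw [hI] at hl
    exact Finset.mem_singleton.1 hl
  subst hl1
  have h1 := hq (i + 1) hl
  rw [hI] at h0 h1
  unfold tau
  rw [hI]
  have hP : ∀ x : ℤ → ℝ, ∀ j : ℤ, P x {j} = S (x j) := by
    intro x j
    unfold P
    exact Finset.prod_singleton _ _
  rw [hP] at h0 h1
  rw [Finset.erase_singleton]
  have hP0 : P (u i) ∅ = 1 := by unfold P; exact Finset.prod_empty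
  rw [hP0, one_mul]
  rw [show i + 1 + 1 = i + 2 by ring] at h1
  set x := u i (i + 1) with hx
  set y := u (i + 1) (i + 2) with hy
  have hxy : x < y := H.diag i
  have hyx : y < x + 2 * Real.pi := by
    have h2 := H.diag (i + 1)
    rw [show i + 1 + 1 = i + 2 by ring, show i + 1 + 2 = i + 1 + ((2 : ℕ) : ℤ) by norm_num,
      show i + 2 = i + ((2 : ℕ) : ℤ) by norm_num, H.per] at h2
    exact h2
  have hs : 0 < Real.sin ((y - x) / 2) :=
    Real.sin_pos_of_pos_of_lt_pi (by linarith) (by linarith)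
  rw [S_eq y x, map_sub, gC, gC, h0, sg_succ] at h1
  have h2 : 0 ≤ Real.sin ((y - x) / 2) * (sg i * h (K x)) := by linarith
  have h3 : 0 ≤ sg i * h (K x) := by
    by_contra hc
    push Not at hc
    have := mul_neg_of_pos_of_neg hs hc
    linarith
  refine lt_of_le_of_ne h3 fun h4 => hne ?_
  have h5 : h (K x) = 0 := by
    have h6 := sg_sq i
    have : sg i * (sg i * h (K x)) = 0 := by rw [← h4, mul_zero]
    rw [← mul_assoc, h6, one_mul] at this
    exact this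
  have h6 := ev_zero h x 1 (by
    intro f hf
    have h7 : f = C (f.coeff 0) := by
      apply eq_C_of_degree_le_zero
      simpa using le_of_mem hf
    rw [h7, mul_comm, gC, h0, mul_zero]) (by rw [pow_one]; exact h5)
  exact h6

/-- Transfer from the array with one vertex deleted. -/
theorem transfer {N : ℕ} (hN : 2 ≤ N) (hPP : PP N) {φ ψ z : ℤ → ℤ} (D : Del N φ ψ z)
    {u : ℤ → ℤ → ℝ} (H : KArr (N + 1) u) (g : ℝ[X] →ₗ[ℝ] ℝ) (w : ℝ)
    (hne : ¬ ∀ f ∈ degreeLT ℝ N, g (S w * f) = 0) (a : ℤ)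
    (h0 : g (S w * P (u (ψ a)) ((Ioo (ψ a) (ψ a + (N + 1 : ℕ))).erase (z a))) = 0)
    (hnn : ∀ b ∈ Ioo a (a + (N : ℤ)), 0 ≤ -(sg b *
      g (S w * P (u (ψ b)) ((Ioo (ψ b) (ψ b + (N + 1 : ℕ))).erase (z b))))) :
    ∀ l ∈ Ioo (ψ a) (ψ a + (N + 1 : ℕ)), l ≠ z a →
      0 < -(sg a * g (S w * (P (u (ψ a))
        (((Ioo (ψ a) (ψ a + (N + 1 : ℕ))).erase (z a)).erase l) * K (u (ψ a) l)))) := by
  intro l hl hlz
  have hl' : l ∈ (Ioo a (a + (N : ℤ))).image φ := by
    rw [D.image a]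
    exact Finset.mem_erase.2 ⟨hlz, hl⟩
  obtain ⟨b, hb, rfl⟩ := Finset.mem_image.1 hl'
  have hinj := D.φmono.injective
  have hrow : ∀ c : ℤ, P (fun b => u (ψ c) (φ b)) (Ioo c (c + (N : ℤ))) =
      P (u (ψ c)) ((Ioo (ψ c) (ψ c + (N + 1 : ℕ))).erase (z c)) := by
    intro c
    rw [P_image (u (ψ c)) φ hinj, D.image c]
  have key := hPP (fun a b => u (ψ a) (φ b)) (H.del hN D) (-(g ∘ₗ LinearMap.mulLeft ℝ (S w)))
    (by
      intro hz
      apply hne
      intro f hf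
      have := hz f hf
      simpa using this) a
    (by
      rw [hrow a]
      simp only [LinearMap.neg_apply, LinearMap.comp_apply, LinearMap.mulLeft_apply]
      rw [h0, neg_zero])
    (by
      intro q hq
      rw [hrow q]
      have := hnn q hq
      simp only [LinearMap.neg_apply, LinearMap.comp_apply, LinearMap.mulLeft_apply]
      linarith) b hb
  unfold tau at key
  have e : P (fun b => u (ψ a) (φ b)) ((Ioo a (a + (N : ℤ))).erase b) =
      P (u (ψ a)) (((Ioo (ψ a) (ψ a + (N + 1 : ℕ))).erase (z a)).erase (φ b)) := by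
    rw [P_image (u (ψ a)) φ hinj, Finset.image_erase hinj, D.image a]
  rw [e] at key
  simp only [LinearMap.neg_apply, LinearMap.comp_apply, LinearMap.mulLeft_apply] at key
  linarith

end Pool.Agent.H40.Atiyah
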